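import Pool.Agent.T6.H2.LFb
import Pool.Agent.H362R2.RQ.Shapes

/-! # Homogeneous functions and linear forms of consecutive prime gaps at every scale (helper2) -/

set_option autoImplicit false

open Finset Filter

namespace Pool.Agent.T6.H2.LF

open Pool.Agent.H256R2.SC (ff)
open Pool.Agent.H312R2.RG.C3 (ff_tendsto ff_lower ff_small ff_upper)
open Pool.Agent.H362R2.RQ

/-- the gap with index `n` -/
noncomputable def gp (n : ℕ) : ℝ := (Nat.nth Nat.Prime (n + 1) : ℝ) - Nat.nth Nat.Prime n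

theorem nth_mono : Monotone (Nat.nth Nat.Prime) := Nat.nth_monotone Nat.infinite_setOfPred_prime

theorem nth_mono_real {i j : ℕ} (h : i ≤ j) : (Nat.nth Nat.Prime i : ℝ) ≤ Nat.nth Nat.Prime j := by
  exact_mod_cast nth_mono h

theorem gp_nonneg (n : ℕ) : 0 ≤ gp n := by
  have := nth_mono_real (Nat.le_succ n)
  unfold gp
  linarith

/-- the set of the good starting points of blocks of `k` gaps -/
def GoodSet (k : ℕ) (P : (Fin k → ℝ) → Prop) (X : ℝ) (q a : ℕ) : Set ℕ :=
  {n : ℕ | X < Nat.nth Nat.Prime n ∧ (Nat.nth Nat.Prime (n + k) : ℝ) ≤ 4 * X ∧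
    (∀ i ≤ k, Nat.nth Nat.Prime (n + i) ≡ a [MOD q]) ∧ P (fun i => gp (n + i))}

theorem goodSet_finite (k : ℕ) (P : (Fin k → ℝ) → Prop) (X : ℝ) (q a : ℕ) : (GoodSet k P X q a).Finite := by
  refine (Set.finite_Iic ⌊4 * X⌋₊).subset ?_
  rintro n ⟨-, h2, -⟩
  rw [Set.mem_Iic]
  refine Nat.le_floor (le_trans ?_ h2)
  have h3 : n + k ≤ Nat.nth Nat.Prime (n + k) :=
    (Nat.nth_strictMono Nat.infinite_setOfPred_prime).le_apply
  exact_mod_cast (Nat.le_add_right n k).trans h3

theorem homog (h : StRQ) (k : ℕ) (j : Fin k) (r : ℝ) (G : (Fin k → ℝ) → ℝ) (hr : 0 ≤ r)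
    (hG : ∀ t : ℝ, 0 < t → ∀ x : Fin k → ℝ, G (t • x) = t ^ r * G x)
    (hcont : ContinuousAt G (Pi.single j 1)) (hpos : 0 < G (Pi.single j 1)) :
    ∃ c C : ℝ, 0 < c ∧ 0 < C ∧ ∀ q a : ℕ, Squarefree q → a.Coprime q → ∃ X₀ : ℝ, ∀ X : ℝ, X₀ ≤ X →
      ∀ H : ℝ, Real.log X ≤ H → H ≤ c * ff X →
      X ^ (7 / 8 : ℝ) ≤ ((GoodSet k (fun x => c * H ^ r ≤ G x ∧ G x ≤ C * H ^ r) X q a).ncard : ℝ) := by
  classical
  set e : Fin k → ℝ := Pi.single j 1 with he
  obtain ⟨δ, hδ, hδG⟩ := Metric.continuousAt_iff.1 hcont (G e / 2) (by linarith)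
  obtain ⟨c₁, hc₁, hdom⟩ := dominant h k (δ / 2) (by linarith)
  set c : ℝ := min c₁ (c₁ ^ r * (G e / 2)) with hc
  have hc0 : 0 < c := by
    rw [hc]
    have := Real.rpow_pos_of_pos hc₁ r
    positivity
  refine ⟨c, 2 * G e, hc0, by linarith, ?_⟩
  intro q a hqsf haq
  obtain ⟨X1, hX1⟩ := hdom q a hqsf haq
  obtain ⟨X2, hX2⟩ := Filter.eventually_atTop.1 ((ev_bad (c₁ + 1) (by linarith)).and
    ((ff_small (c₁ + 1) (by linarith)).and ((ff_tendsto.eventually_gt_atTop 0).and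
      (eventually_ge_atTop (Real.exp 1)))))
  refine ⟨max X1 X2, ?_⟩
  intro X hX H hlH hHc
  obtain ⟨hbadX, hsmall, hffpos, hXe⟩ := hX2 X ((le_max_right _ _).trans hX)
  have hXpos : 0 < X := (Real.exp_pos 1).trans_le hXe
  have hlog : 1 ≤ Real.log X := by
    rw [Real.le_log_iff_exp_le hXpos]; exact hXe
  have hH0 : 0 < H := by linarith
  have hHc₁ : H ≤ c₁ * ff X := hHc.trans (mul_le_mul_of_nonneg_right (min_le_left _ _) hffpos.le)
  have hHX : H ≤ X := by
    have : (c₁ + 1) * ff X = c₁ * ff X + ff X := by ring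
    linarith
  set S := GoodSet k (fun x => c * H ^ r ≤ G x ∧ G x ≤ 2 * G e * H ^ r) X q a with hS
  have hfin : S.Finite := goodSet_finite _ _ _ _ _
  by_contra hlt
  push Not at hlt
  set S0 : Finset ℕ := hfin.toFinset with hS0
  have hS0card : (S0.card : ℝ) < X ^ (7 / 8 : ℝ) := by
    rw [hS0, ← Set.ncard_eq_toFinset_card S hfin]
    exact hlt
  set bad : Finset ℕ := S0.biUnion (fun m => Icc (Nat.nth Nat.Prime (m + j) - ⌊H⌋₊) (Nat.nth Nat.Prime (m + j)))
    with hbaddef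
  have hbadcard : (bad.card : ℝ) ≤ X ^ (9 / 10 : ℝ) := by
    have h1 : bad.card ≤ S0.card * (⌊H⌋₊ + 1) := by
      refine Finset.card_biUnion_le.trans ?_
      have h2 : ∀ m ∈ S0, (Icc (Nat.nth Nat.Prime (m + j) - ⌊H⌋₊) (Nat.nth Nat.Prime (m + j))).card ≤
          ⌊H⌋₊ + 1 := by
        intro m _
        rw [Nat.card_Icc]
        omega
      exact (Finset.sum_le_card_nsmul _ _ _ h2).trans (le_of_eq (by rw [smul_eq_mul]))
    have h3 : ((⌊H⌋₊ + 1 : ℕ) : ℝ) ≤ (c₁ + 1) * ff X + 1 := by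
      push_cast
      have := Nat.floor_le hH0.le
      nlinarith
    calc (bad.card : ℝ) ≤ ((S0.card * (⌊H⌋₊ + 1) : ℕ) : ℝ) := by exact_mod_cast h1
      _ = (S0.card : ℝ) * ((⌊H⌋₊ + 1 : ℕ) : ℝ) := by push_cast; ring
      _ ≤ X ^ (7 / 8 : ℝ) * ((c₁ + 1) * ff X + 1) := by
          apply mul_le_mul hS0card.le h3 (Nat.cast_nonneg _) (Real.rpow_nonneg (by linarith) _)
      _ ≤ _ := hbadX
  obtain ⟨n₀, n, hn1, hn2, hn3, hkn, hb1, hb2, hgap, hleft, hright, hres⟩ :=
    hX1 X ((le_max_left _ _).trans hX) H hlH hHc₁ bad hbadcard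
  have hjk : (j : ℕ) < k := j.2
  have hjn : (j : ℕ) ≤ n := by omega
  set m := n - (j : ℕ) with hm
  have hmj : m + j = n := by omega
  -- the gap
  set d : ℝ := (Nat.nth Nat.Prime (n + 1) : ℝ) - Nat.nth Nat.Prime n with hd
  have hd0 : 0 < d := lt_of_lt_of_le (by positivity) hgap
  have hb1r : (n₀ : ℝ) ≤ Nat.nth Nat.Prime (n - k) := by exact_mod_cast hb1
  have hdH : d ≤ H := by
    have h1 := nth_mono_real (show n + 1 ≤ n + 1 + k by omega)
    have h2 := nth_mono_real (show n - k ≤ n by omega)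
    rw [hd]; linarith
  -- the vector
  set z : Fin k → ℝ := fun i => gp (m + i) / d with hz
  have hxz : (fun i : Fin k => gp (m + i)) = d • z := by
    funext i
    simp only [hz, Pi.smul_apply, smul_eq_mul]
    field_simp
  have hzdist : dist z e ≤ δ / 2 := by
    rw [dist_pi_le_iff (by linarith)]
    intro i
    by_cases hij : i = j
    · subst hij
      have h1 : z i = 1 := by
        simp only [hz]
        rw [hmj]
        have : gp n = d := rfl
        rw [this]
        field_simp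
      have h2 : e i = 1 := by rw [he]; simp
      rw [h1, h2, dist_self]
      linarith
    · have h2 : e i = 0 := by rw [he]; simp [hij]
      rw [h2, dist_zero_right, Real.norm_of_nonneg (div_nonneg (gp_nonneg _) hd0.le)]
      rw [div_le_iff₀ hd0]
      have hi := i.2
      have hij' : (i : ℕ) ≠ j := fun h => hij (Fin.ext h)
      rcases lt_or_gt_of_ne hij' with hlt' | hgt'
      · have h3 := nth_mono_real (show m + i + 1 ≤ n by omega)
        have h4 := nth_mono_real (show n - k ≤ m + i by omega)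
        unfold gp
        linarith
      · have h3 := nth_mono_real (show m + i + 1 ≤ n + 1 + k by omega)
        have h4 := nth_mono_real (show n + 1 ≤ m + i by omega)
        unfold gp
        linarith
  have hGz := hδG (show dist z e < δ by linarith)
  rw [Real.dist_eq, abs_lt] at hGz
  have hGx : G (fun i : Fin k => gp (m + i)) = d ^ r * G z := by
    rw [hxz, hG d hd0]
  have hmem : m ∈ S := by
    refine ⟨?_, ?_, ?_, ?_, ?_⟩
    · have h1 := nth_mono_real (show n - k ≤ m by omega)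
      linarith
    · have h1 := nth_mono_real (show m + k ≤ n + 1 + k by omega)
      linarith
    · intro i hi
      exact hres _ (by omega) (by omega)
    · show c * H ^ r ≤ G (fun i : Fin k => gp (m + i))
      rw [hGx]
      have h1 : (c₁ * H) ^ r ≤ d ^ r := Real.rpow_le_rpow (by positivity) hgap hr
      rw [Real.mul_rpow hc₁.le hH0.le] at h1
      have h2 : 0 ≤ H ^ r := Real.rpow_nonneg hH0.le r
      calc c * H ^ r ≤ (c₁ ^ r * (G e / 2)) * H ^ r := mul_le_mul_of_nonneg_right (min_le_right _ _) h2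
        _ = (c₁ ^ r * H ^ r) * (G e / 2) := by ring
        _ ≤ d ^ r * G z := by
            apply mul_le_mul h1 (by linarith) (by linarith) (Real.rpow_nonneg hd0.le r)
    · show G (fun i : Fin k => gp (m + i)) ≤ 2 * G e * H ^ r
      rw [hGx]
      have h1 : d ^ r ≤ H ^ r := Real.rpow_le_rpow hd0.le hdH hr
      calc d ^ r * G z ≤ H ^ r * (2 * G e) := by
            apply mul_le_mul h1 (by linarith) (by linarith) (Real.rpow_nonneg hH0.le r)
        _ = 2 * G e * H ^ r := by ring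
  apply hn3
  rw [hbaddef, mem_biUnion]
  refine ⟨m, by rw [hS0, Set.Finite.mem_toFinset]; exact hmem, ?_⟩
  rw [hmj, mem_Icc]
  have h1 : n₀ ≤ Nat.nth Nat.Prime n := hb1.trans (nth_mono (by omega))
  have h2 : (Nat.nth Nat.Prime n : ℝ) ≤ n₀ + H := (nth_mono_real (by omega)).trans hb2
  have h3 : Nat.nth Nat.Prime n - n₀ ≤ ⌊H⌋₊ := by
    apply Nat.le_floor
    rw [Nat.cast_sub h1]
    linarith
  omega

/-- the vector `(0, …, 0, 1, …, 1)` whose entries with index `> j` are `1` -/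
noncomputable def step (k : ℕ) (j : Fin k) : Fin (k + 1) → ℝ := fun i => if (j : ℕ) < i then 1 else 0

/-- partial sums -/
noncomputable def psum (k : ℕ) (x : Fin k → ℝ) : Fin (k + 1) → ℝ :=
  fun i => ∑ l : Fin k, if (l : ℕ) < i then x l else 0

theorem psum_cont (k : ℕ) : Continuous (psum k) := by
  refine continuous_pi fun i => ?_
  unfold psum
  refine continuous_finsetSum _ fun l _ => ?_
  split_ifs
  · exact continuous_apply l
  · exact continuous_const

theorem psum_single (k : ℕ) (j : Fin k) : psum k (Pi.single j 1) = step k j := by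
  classical
  funext i
  unfold psum step
  rw [sum_eq_single j]
  · simp
  · intro l _ hl
    simp [hl]
  · intro h; exact absurd (mem_univ _) h

theorem psum_smul (k : ℕ) (t : ℝ) (x : Fin k → ℝ) : psum k (t • x) = t • psum k x := by
  funext i
  unfold psum
  simp only [Pi.smul_apply, smul_eq_mul, mul_sum]
  refine sum_congr rfl fun l _ => ?_
  split_ifs <;> simp

theorem psum_gp (k n : ℕ) : (fun i : Fin (k + 1) => (Nat.nth Nat.Prime (n + i) : ℝ)) =
    fun i => psum k (fun l => gp (n + l)) i + (Nat.nth Nat.Prime n : ℝ) := by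
  funext i
  have key : ∀ m : ℕ, m ≤ k → (∑ l : Fin k, if (l : ℕ) < m then gp (n + l) else 0) +
      (Nat.nth Nat.Prime n : ℝ) = (Nat.nth Nat.Prime (n + m) : ℝ) := by
    intro m hm
    have h1 : (∑ l : Fin k, if (l : ℕ) < m then gp (n + l) else 0) = ∑ l ∈ range m, gp (n + l) := by
      rw [Fin.sum_univ_eq_sum_range (fun l => if l < m then gp (n + l) else 0) k, ← sum_filter]
      congr 1
      ext l
      simp only [mem_filter, mem_range]
      omega
    rw [h1]
    clear h1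
    induction m with
    | zero => simp
    | succ m ih =>
      rw [sum_range_succ]
      have h2 := ih (by omega)
      have h3 : gp (n + m) = (Nat.nth Nat.Prime (n + (m + 1)) : ℝ) - Nat.nth Nat.Prime (n + m) := rfl
      linarith
  have := key i (by have := i.2; omega)
  unfold psum
  rw [this]

theorem trans_homog (h : StRQ) (k : ℕ) (j : Fin k) (r : ℝ) (Φ : (Fin (k + 1) → ℝ) → ℝ) (hr : 0 ≤ r)
    (hΦt : ∀ (t : ℝ) (x : Fin (k + 1) → ℝ), Φ (fun i => x i + t) = Φ x)
    (hΦ : ∀ t : ℝ, 0 < t → ∀ x : Fin (k + 1) → ℝ, Φ (t • x) = t ^ r * Φ x)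
    (hcont : ContinuousAt Φ (step k j)) (hpos : 0 < Φ (step k j)) :
    ∃ c C : ℝ, 0 < c ∧ 0 < C ∧ ∀ q a : ℕ, Squarefree q → a.Coprime q → ∃ X₀ : ℝ, ∀ X : ℝ, X₀ ≤ X →
      ∀ H : ℝ, Real.log X ≤ H → H ≤ c * ff X →
      X ^ (7 / 8 : ℝ) ≤ ({n : ℕ | X < Nat.nth Nat.Prime n ∧ (Nat.nth Nat.Prime (n + k) : ℝ) ≤ 4 * X ∧
        (∀ i ≤ k, Nat.nth Nat.Prime (n + i) ≡ a [MOD q]) ∧
        c * H ^ r ≤ Φ (fun i => (Nat.nth Nat.Prime (n + i) : ℝ)) ∧
        Φ (fun i => (Nat.nth Nat.Prime (n + i) : ℝ)) ≤ C * H ^ r}.ncard : ℝ) := by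
  obtain ⟨c, C, hc, hC, hmain⟩ := homog h k j r (fun x => Φ (psum k x)) hr (by
    intro t ht x
    show Φ (psum k (t • x)) = t ^ r * Φ (psum k x)
    rw [psum_smul, hΦ t ht]) (by
    have h1 : ContinuousAt Φ (psum k (Pi.single j 1)) := by rw [psum_single]; exact hcont
    exact ContinuousAt.comp (g := Φ) (f := psum k) h1 (psum_cont k).continuousAt) (by
    show 0 < Φ (psum k (Pi.single j 1))
    rw [psum_single]; exact hpos)
  refine ⟨c, C, hc, hC, ?_⟩
  intro q a hqsf haq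
  obtain ⟨X₀, hX₀⟩ := hmain q a hqsf haq
  refine ⟨X₀, fun X hX H hlH hHc => (hX₀ X hX H hlH hHc).trans (le_of_eq ?_)⟩
  congr 2
  ext n
  unfold GoodSet
  have e1 : Φ (fun i : Fin (k + 1) => (Nat.nth Nat.Prime (n + i) : ℝ)) = Φ (psum k (fun l => gp (n + l))) := by
    rw [psum_gp, hΦt]
  rw [Set.mem_ofPred_eq, Set.mem_ofPred_eq, e1]

end Pool.Agent.T6.H2.LF
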