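import Pool.Agent.T6.H2.LFc
import Pool.Agent.H361R2.PP.Asm2

/-! # Homogeneous functions of consecutive primes for a positive proportion of the primes (helper2) -/

set_option autoImplicit false

open Finset Filter

namespace Pool.Agent.T6.H2.LF

open Pool.Agent.H361R2.PP (MasterT Tra Good CL P)

/-- two of eight clusters -/
theorem two_of_eight (S : Finset (Fin 8)) (h : 8 ≤ 4 * S.card) : ∃ i ∈ S, ∃ j ∈ S, i < j := by
  have h2 : 1 < S.card := by omega
  obtain ⟨i, hi, j, hj, hij⟩ := Finset.one_lt_card.1 h2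
  rcases lt_or_gt_of_ne hij with h | h
  · exact ⟨i, hi, j, hj, h⟩
  · exact ⟨j, hj, i, hi, h⟩

/-- the block at the scale `L`: the gap after the prime with index `n` dominates -/
def BlkP (k : ℕ) (ε K Λ L : ℝ) (n₀ n : ℕ) : Prop :=
  k ≤ n ∧ (n₀ : ℝ) + L ≤ Nat.nth Nat.Prime (n - k) ∧ (Nat.nth Nat.Prime (n + 1 + k) : ℝ) ≤ n₀ + Λ * L ∧
  K * L ≤ (Nat.nth Nat.Prime (n + 1) : ℝ) - Nat.nth Nat.Prime n ∧
  (Nat.nth Nat.Prime n : ℝ) - Nat.nth Nat.Prime (n - k) ≤
    ε * ((Nat.nth Nat.Prime (n + 1) : ℝ) - Nat.nth Nat.Prime n) ∧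
  (Nat.nth Nat.Prime (n + 1 + k) : ℝ) - Nat.nth Nat.Prime (n + 1) ≤
    ε * ((Nat.nth Nat.Prime (n + 1) : ℝ) - Nat.nth Nat.Prime n)

theorem dominantP (k : ℕ) (ε K : ℝ) (hε : 0 < ε) (hK : 1 ≤ K) : ∃ (α : Fin 8 → ℝ) (Λ : ℝ), 0 < Λ ∧
    (∀ i, 0 ≤ α i ∧ α i + 1 ≤ Λ) ∧ ∀ (X n₀ : ℕ), 0 < Real.log X → Good (k + 1) α 1 Λ X n₀ →
      ∃ n : ℕ, BlkP k ε K Λ (Real.log X) n₀ n := by
  classical
  set R : ℝ := 4 + 2 / ε with hR
  have hε2 : 0 < 2 / ε := by positivity
  have hRε : 2 / ε ≤ R - 4 := by rw [hR]; linarith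
  have hR4 : 4 ≤ R := by linarith
  set Λ : ℝ := K * R ^ 8 with hΛ
  have hRp : ∀ i : ℕ, (1 : ℝ) ≤ R ^ i := fun i => one_le_pow₀ (by linarith)
  have hΛ0 : 0 < Λ := by
    have := hRp 8
    rw [hΛ]; positivity
  have hαΛ : ∀ i : ℕ, i < 8 → K * R ^ i + 1 ≤ Λ := by
    intro i hi
    have h1 : R ^ (i + 1) ≤ R ^ 8 := pow_le_pow_right₀ (by linarith) hi
    have h2 := hRp i
    rw [pow_succ] at h1
    have h3 : R ^ i * 4 ≤ R ^ i * R := mul_le_mul_of_nonneg_left hR4 (by linarith)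
    have h4 : K * (R ^ i * 4) ≤ K * R ^ 8 := mul_le_mul_of_nonneg_left (by linarith) (by linarith)
    have h5 : K * 1 ≤ K * R ^ i := mul_le_mul_of_nonneg_left h2 (by linarith)
    rw [hΛ]; nlinarith
  refine ⟨fun i => K * R ^ (i : ℕ), Λ, hΛ0, ?_, ?_⟩
  · intro i
    have h1 := hRp i
    exact ⟨by positivity, hαΛ i i.2⟩
  intro X n₀ hL0 hG
  set L := Real.log X with hL
  obtain ⟨hG1, hG2⟩ := hG
  set Nw := ⌊Λ * L⌋₊ with hNw
  have hn0nn : (0 : ℝ) ≤ n₀ := Nat.cast_nonneg _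
  set lo : ℕ → ℝ := fun i => (n₀ : ℝ) + (K * R ^ i) * L with hlo
  set hi : ℕ → ℝ := fun i => (n₀ : ℝ) + (K * R ^ i + 1) * L with hhi
  have hlh : ∀ i, lo i ≤ hi i := by
    intro i
    simp only [hlo, hhi]
    nlinarith
  have hsep : ∀ i, hi i < lo (i + 1) := by
    intro i
    simp only [hlo, hhi]
    have h2 := hRp i
    have h3 : K * R ^ i + 1 < K * R ^ (i + 1) := by
      rw [pow_succ]
      have h4 : R ^ i * 4 ≤ R ^ i * R := mul_le_mul_of_nonneg_left hR4 (by linarith)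
      have h5 : K * (R ^ i * 4) ≤ K * (R ^ i * R) := mul_le_mul_of_nonneg_left h4 (by linarith)
      have h6 : K * 1 ≤ K * R ^ i := mul_le_mul_of_nonneg_left h2 (by linarith)
      nlinarith
    have := mul_lt_mul_of_pos_right h3 hL0
    linarith
  have hlo0 : (n₀ : ℝ) + L ≤ lo 0 := by
    simp only [hlo, pow_zero]
    nlinarith
  have hhib : ∀ i, i < 8 → hi i ≤ n₀ + Λ * L := by
    intro i hi'
    simp only [hhi]
    have := mul_le_mul_of_nonneg_right (hαΛ i hi') hL0.le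
    linarith
  -- the rich clusters
  obtain ⟨i₁, hi₁, i₂, hi₂, hi12⟩ := two_of_eight _ hG1
  rw [mem_filter] at hi₁ hi₂
  have hrich : ∀ i : Fin 8, k + 1 ≤ ((Icc 1 Nw).filter (fun a =>
        CL (K * R ^ (i : ℕ)) 1 L a ∧ (n₀ + a).Prime)).card →
      ∃ A : Finset ℕ, (∀ p ∈ A, p.Prime ∧ lo i ≤ p ∧ (p : ℝ) ≤ hi i) ∧ k + 1 ≤ A.card := by
    intro i hc
    refine ⟨((Icc 1 Nw).filter (fun a => CL (K * R ^ (i : ℕ)) 1 L a ∧ (n₀ + a).Prime)).image
      (fun a => n₀ + a), ?_, ?_⟩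
    · intro p hp
      obtain ⟨a, ha, rfl⟩ := mem_image.1 hp
      rw [mem_filter] at ha
      obtain ⟨-, ⟨h1, h2⟩, h3⟩ := ha
      refine ⟨h3, ?_, ?_⟩
      · simp only [hlo]; push_cast; linarith
      · simp only [hhi]; push_cast; linarith
    · rw [card_image_of_injective _ (fun b b' h => by simpa using h)]
      exact hc
  obtain ⟨A₁, hA₁, hc₁⟩ := hrich i₁ hi₁.2
  obtain ⟨A₂, hA₂, hc₂⟩ := hrich i₂ hi₂.2
  have hcl : ∀ p : ℕ, p.Prime → (n₀ : ℝ) + L ≤ p → (p : ℝ) ≤ n₀ + Λ * L →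
      ∃ i, lo i ≤ p ∧ (p : ℝ) ≤ hi i := by
    intro p hp h1 h2
    have h3 : (n₀ : ℝ) < p := by linarith
    have h3' : n₀ < p := by exact_mod_cast h3
    obtain ⟨s, rfl⟩ := Nat.exists_eq_add_of_lt h3'
    have h4 : n₀ + s + 1 = n₀ + (s + 1) := by ring
    rw [h4] at hp h1 h2 ⊢
    push_cast at h1 h2
    have hmem : s + 1 ∈ Icc 1 Nw := by
      rw [mem_Icc]
      refine ⟨by omega, ?_⟩
      apply Nat.le_floor
      push_cast
      linarith
    obtain ⟨i, hi1, hi2⟩ := hG2 (s + 1) hmem hp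
    push_cast at hi1 hi2
    refine ⟨i, ?_, ?_⟩
    · simp only [hlo]; push_cast; linarith
    · simp only [hhi]; push_cast; linarith
  have hlomono : ∀ i, lo 0 ≤ lo i := by
    intro i
    simp only [hlo, pow_zero]
    have h1 : K * 1 ≤ K * R ^ i := mul_le_mul_of_nonneg_left (hRp i) (by linarith)
    have := mul_le_mul_of_nonneg_right h1 hL0.le
    linarith
  obtain ⟨n, hkn, hb1, hb2, hb3, hb4⟩ := core_index k lo hi hlh hsep (by linarith) (n₀ + L)
    (n₀ + Λ * L) hcl i₁ i₂ hi12 (hlo0.trans (hlomono _)) (hhib _ i₂.2) A₁ A₂ hA₁ hA₂ hc₁ hc₂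
  obtain ⟨B, hB⟩ : ∃ B : ℕ, (i₂ : ℕ) = B + 1 := ⟨i₂ - 1, by have : (i₁ : ℕ) < i₂ := hi12; omega⟩
  have hBb := hhib _ i₂.2
  rw [hB] at hb2 hb3 hb4 hBb
  simp only [Nat.add_sub_cancel] at hb2
  have hb0 : lo 0 ≤ Nat.nth Nat.Prime (n - k) := (hlomono _).trans hb1
  have hRB := hRp B
  set y := R ^ B with hy
  have hKy : 1 ≤ K * y := by nlinarith
  have hgap : K * y * (R - 2) * L ≤ (Nat.nth Nat.Prime (n + 1) : ℝ) - Nat.nth Nat.Prime n := by
    have h1 : lo (B + 1) - hi B ≤ (Nat.nth Nat.Prime (n + 1) : ℝ) - Nat.nth Nat.Prime n := by linarith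
    refine le_trans ?_ h1
    simp only [hlo, hhi]
    rw [pow_succ, ← hy]
    have e1 : (n₀ : ℝ) + K * (y * R) * L - ((n₀ : ℝ) + (K * y + 1) * L) = (K * (y * R) - K * y - 1) * L := by
      ring
    rw [e1]
    apply mul_le_mul_of_nonneg_right _ hL0.le
    have e2 : K * y * (R - 2) = K * (y * R) - 2 * (K * y) := by ring
    linarith
  have hleft : (Nat.nth Nat.Prime n : ℝ) - Nat.nth Nat.Prime (n - k) ≤ K * y * 2 * L := by
    have h1 : (Nat.nth Nat.Prime n : ℝ) - Nat.nth Nat.Prime (n - k) ≤ hi B - lo 0 := by linarith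
    refine h1.trans ?_
    simp only [hlo, hhi]
    rw [pow_zero, ← hy]
    have e1 : (n₀ : ℝ) + (K * y + 1) * L - ((n₀ : ℝ) + K * 1 * L) = (K * y + 1 - K) * L := by ring
    rw [e1]
    apply mul_le_mul_of_nonneg_right _ hL0.le
    linarith
  have hright : (Nat.nth Nat.Prime (n + 1 + k) : ℝ) - Nat.nth Nat.Prime (n + 1) ≤ K * y * 2 * L := by
    have h1 : (Nat.nth Nat.Prime (n + 1 + k) : ℝ) - Nat.nth Nat.Prime (n + 1) ≤ hi (B + 1) - lo (B + 1) := by
      linarith
    refine h1.trans ?_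
    simp only [hlo, hhi]
    have e1 : (n₀ : ℝ) + (K * R ^ (B + 1) + 1) * L - ((n₀ : ℝ) + K * R ^ (B + 1) * L) = 1 * L := by ring
    rw [e1]
    apply mul_le_mul_of_nonneg_right _ hL0.le
    linarith
  have hratio : K * y * 2 * L ≤ ε * (K * y * (R - 2) * L) := by
    have h1 : 2 ≤ ε * (R - 2) := by
      have h2 : ε * (2 / ε) ≤ ε * (R - 2) := mul_le_mul_of_nonneg_left (by linarith) hε.le
      have h3 : ε * (2 / ε) = 2 := by field_simp
      linarith
    have h2 : 0 ≤ K * y * L := by positivity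
    have e2 : K * y * 2 * L = K * y * L * 2 := by ring
    have e3 : ε * (K * y * (R - 2) * L) = K * y * L * (ε * (R - 2)) := by ring
    rw [e2, e3]
    exact mul_le_mul_of_nonneg_left h1 h2
  have hεgap : ε * (K * y * (R - 2) * L) ≤ ε * ((Nat.nth Nat.Prime (n + 1) : ℝ) - Nat.nth Nat.Prime n) :=
    mul_le_mul_of_nonneg_left hgap hε.le
  refine ⟨n, hkn, by linarith, by linarith, ?_, by linarith, by linarith⟩
  refine le_trans ?_ hgap
  apply mul_le_mul_of_nonneg_right _ hL0.le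
  have h4 : 1 * 1 ≤ y * (R - 2) := mul_le_mul hRB (by linarith) (by norm_num) (by linarith)
  have h5 : K * 1 ≤ K * (y * (R - 2)) := mul_le_mul_of_nonneg_left (by linarith) (by linarith)
  have e4 : K * y * (R - 2) = K * (y * (R - 2)) := by ring
  rw [e4]; linarith

open Classical in
theorem homogP (hM : MasterT) (hT : Tra) (k : ℕ) (j : Fin k) (r : ℝ) (G : (Fin k → ℝ) → ℝ) (hr : 0 < r)
    (hG : ∀ t : ℝ, 0 < t → ∀ x : Fin k → ℝ, G (t • x) = t ^ r * G x)
    (hcont : ContinuousAt G (Pi.single j 1)) (hpos : 0 < G (Pi.single j 1)) (K : ℝ) :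
    ∃ c C : ℝ, 0 < c ∧ ∃ N₀ : ℕ, ∀ N : ℕ, N₀ ≤ N →
      c * N ≤ (((range N).filter (fun n : ℕ =>
        K * Real.log (Nat.nth Nat.Prime n) ^ r ≤ G (fun i => gp (n + i)) ∧
        G (fun i => gp (n + i)) ≤ C * Real.log (Nat.nth Nat.Prime n) ^ r)).card : ℝ) := by
  set e : Fin k → ℝ := Pi.single j 1 with he
  obtain ⟨δ, hδ, hδG⟩ := Metric.continuousAt_iff.1 hcont (G e / 2) (by linarith)
  -- the size
  obtain ⟨K', hK'1, hK'⟩ : ∃ K' : ℝ, 1 ≤ K' ∧ K * 2 ^ r ≤ K' ^ r * (G e / 2) := by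
    have h1 : Tendsto (fun x : ℝ => x ^ r * (G e / 2)) atTop atTop :=
      (tendsto_rpow_atTop hr).atTop_mul_const (by linarith)
    obtain ⟨K', h2, h3⟩ := ((eventually_ge_atTop (1 : ℝ)).and
      (h1.eventually_ge_atTop (K * 2 ^ r))).exists
    exact ⟨K', h2, h3⟩
  obtain ⟨α, Λ, hΛ0, hα, hblk⟩ := dominantP k (δ / 2) K' (by linarith) hK'1
  obtain ⟨c0, hc0, X0, hX0⟩ := hM 8 (k + 1) α 1 Λ one_pos hΛ0 hα
  obtain ⟨c', hc', hT'⟩ := hT c0 Λ hc0 hΛ0
  have hlog := Real.tendsto_log_atTop.comp (tendsto_natCast_atTop_atTop (R := ℝ))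
  have e1 := hlog.eventually_ge_atTop (2 : ℝ)
  have e4 : ∀ᶠ X : ℕ in Filter.atTop, Λ * Real.log X ≤ X := by
    have h1 : (fun x : ℝ => Real.log x) =o[Filter.atTop] (fun x : ℝ => x) :=
      Real.isLittleO_log_id_atTop
    have h2 := h1.bound (show (0 : ℝ) < 1 / Λ by positivity)
    have h3 := tendsto_natCast_atTop_atTop (R := ℝ) |>.eventually h2
    filter_upwards [h3, Filter.eventually_ge_atTop 1] with X hX hX1
    have hX1' : (1 : ℝ) ≤ X := by exact_mod_cast hX1
    rw [Real.norm_of_nonneg (Real.log_nonneg hX1'), Real.norm_of_nonneg (by linarith)] at hX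
    calc Λ * Real.log X ≤ Λ * (1 / Λ * X) := mul_le_mul_of_nonneg_left hX hΛ0.le
      _ = X := by field_simp
  obtain ⟨X1, hX1⟩ := Filter.eventually_atTop.1 (e1.and e4)
  obtain ⟨N₀, hN₀⟩ := hT' (max X0 (max X1 1))
  refine ⟨c', Λ ^ r * (2 * G e), hc', N₀, fun N hN => ?_⟩
  obtain ⟨X, hXm, hTX⟩ := hN₀ N hN
  have hXX0 : X0 ≤ X := (le_max_left _ _).trans hXm
  have hXX1 : X1 ≤ X := (le_max_left _ _).trans ((le_max_right _ _).trans hXm)
  have hX1' : 1 ≤ X := (le_max_right _ _).trans ((le_max_right _ _).trans hXm)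
  obtain ⟨hL2, hΛX⟩ := hX1 X hXX1
  simp only [Function.comp] at hL2
  set L := Real.log X with hL
  have hL0 : 0 < L := by linarith
  set Q : ℕ → Prop := fun n => K * Real.log (Nat.nth Nat.Prime n) ^ r ≤ G (fun i => gp (n + i)) ∧
    G (fun i => gp (n + i)) ≤ Λ ^ r * (2 * G e) * Real.log (Nat.nth Nat.Prime n) ^ r with hQ
  have hmain := hTX (fun q => ∃ m : ℕ, Nat.nth Nat.Prime m = q ∧ Q m) (by
    refine (hX0 X hXX0).trans ?_
    rw [Nat.cast_le]
    refine card_le_card ?_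
    intro n₀ hn₀
    rw [mem_filter, mem_Ico] at hn₀ ⊢
    obtain ⟨⟨hn1, hn2⟩, hGood⟩ := hn₀
    refine ⟨⟨hn1, hn2⟩, ?_⟩
    obtain ⟨n, hkn, hb1, hb2, hgap, hleft, hright⟩ := hblk X n₀ hL0 hGood
    have hjk : (j : ℕ) < k := j.2
    set m := n - (j : ℕ) with hm
    have hmj : m + j = n := by omega
    have hn0X : (X : ℝ) ≤ n₀ := by exact_mod_cast hn1
    have hn02X : (n₀ : ℝ) < 2 * X := by exact_mod_cast hn2
    have hPm1 : (n₀ : ℝ) + L ≤ Nat.nth Nat.Prime m := hb1.trans (nth_mono_real (by omega))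
    have hPm2 : (Nat.nth Nat.Prime m : ℝ) ≤ n₀ + Λ * L := (nth_mono_real (by omega)).trans hb2
    have hPlt : n₀ < Nat.nth Nat.Prime m := by
      have : (n₀ : ℝ) < Nat.nth Nat.Prime m := by linarith
      exact_mod_cast this
    refine ⟨Nat.nth Nat.Prime m - n₀, ?_, ?_, m, ?_, ?_⟩
    · rw [mem_Icc]
      refine ⟨by omega, ?_⟩
      apply Nat.le_floor
      rw [Nat.cast_sub hPlt.le]
      linarith
    · rw [Nat.add_sub_cancel' hPlt.le]
      exact Nat.prime_nth_prime m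
    · rw [Nat.add_sub_cancel' hPlt.le]
    · -- the logarithms
      have hXpos : (0 : ℝ) < X := by exact_mod_cast hX1'
      have hlogm1 : L ≤ Real.log (Nat.nth Nat.Prime m) := Real.log_le_log hXpos (by linarith)
      have hlogm2 : Real.log (Nat.nth Nat.Prime m) ≤ 2 * L := by
        have h1 : (Nat.nth Nat.Prime m : ℝ) ≤ 3 * X := by linarith
        have h2 := Real.log_le_log (by linarith : (0 : ℝ) < Nat.nth Nat.Prime m) h1
        rw [Real.log_mul (by norm_num) hXpos.ne'] at h2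
        have h3 : Real.log 3 ≤ 2 := by
          have h4 : Real.log 3 ≤ 3 - 1 := Real.log_le_sub_one_of_pos (by norm_num)
          linarith
        linarith
      set d : ℝ := (Nat.nth Nat.Prime (n + 1) : ℝ) - Nat.nth Nat.Prime n with hd
      have hd0 : 0 < d := lt_of_lt_of_le (by positivity) hgap
      have hdH : d ≤ Λ * L := by
        have h1 := nth_mono_real (show n + 1 ≤ n + 1 + k by omega)
        have h2 := nth_mono_real (show n - k ≤ n by omega)
        rw [hd]; linarith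
      set z : Fin k → ℝ := fun i => gp (m + i) / d with hz
      have hxz : (fun i : Fin k => gp (m + i)) = d • z := by
        funext i
        simp only [hz, Pi.smul_apply, smul_eq_mul]
        field_simp
      have hzdist : dist z e ≤ δ / 2 := by
        rw [dist_pi_le_iff (by linarith)]
        intro i
        by_cases hij : i = j
        · subst hij
          have h1 : z i = 1 := by
            simp only [hz]
            rw [hmj]
            have : gp n = d := rfl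
            rw [this]
            field_simp
          have h2 : e i = 1 := by rw [he]; simp
          rw [h1, h2, dist_self]
          linarith
        · have h2 : e i = 0 := by rw [he]; simp [hij]
          rw [h2, dist_zero_right, Real.norm_of_nonneg (div_nonneg (gp_nonneg _) hd0.le)]
          rw [div_le_iff₀ hd0]
          have hi := i.2
          have hij' : (i : ℕ) ≠ j := fun h => hij (Fin.ext h)
          rcases lt_or_gt_of_ne hij' with hlt' | hgt'
          · have h3 := nth_mono_real (show m + i + 1 ≤ n by omega)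
            have h4 := nth_mono_real (show n - k ≤ m + i by omega)
            unfold gp
            linarith
          · have h3 := nth_mono_real (show m + i + 1 ≤ n + 1 + k by omega)
            have h4 := nth_mono_real (show n + 1 ≤ m + i by omega)
            unfold gp
            linarith
      have hGz := hδG (show dist z e < δ by linarith)
      rw [Real.dist_eq, abs_lt] at hGz
      have hGx : G (fun i : Fin k => gp (m + i)) = d ^ r * G z := by
        rw [hxz, hG d hd0]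
      have hlm0 : 0 ≤ Real.log (Nat.nth Nat.Prime m) := by linarith
      have hLr : 0 ≤ L ^ r := Real.rpow_nonneg hL0.le r
      constructor
      · rw [hGx]
        have h1 : (K' * L) ^ r ≤ d ^ r := Real.rpow_le_rpow (by positivity) hgap hr.le
        rw [Real.mul_rpow (by linarith) hL0.le] at h1
        have h2 : Real.log (Nat.nth Nat.Prime m) ^ r ≤ (2 * L) ^ r :=
          Real.rpow_le_rpow hlm0 hlogm2 hr.le
        rw [Real.mul_rpow (by norm_num) hL0.le] at h2
        have h3 : K * Real.log (Nat.nth Nat.Prime m) ^ r ≤ (K' ^ r * (G e / 2)) * L ^ r := by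
          by_cases hK0 : 0 ≤ K
          · calc K * Real.log (Nat.nth Nat.Prime m) ^ r ≤ K * (2 ^ r * L ^ r) :=
                  mul_le_mul_of_nonneg_left h2 hK0
              _ = (K * 2 ^ r) * L ^ r := by ring
              _ ≤ _ := mul_le_mul_of_nonneg_right hK' hLr
          · push Not at hK0
            have h4 : K * Real.log (Nat.nth Nat.Prime m) ^ r ≤ 0 :=
              mul_nonpos_of_nonpos_of_nonneg hK0.le (Real.rpow_nonneg hlm0 r)
            refine h4.trans ?_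
            have : 0 ≤ K' ^ r := Real.rpow_nonneg (by linarith) r
            positivity
        calc K * Real.log (Nat.nth Nat.Prime m) ^ r ≤ (K' ^ r * (G e / 2)) * L ^ r := h3
          _ = (K' ^ r * L ^ r) * (G e / 2) := by ring
          _ ≤ d ^ r * G z := by
              apply mul_le_mul h1 (by linarith) (by linarith) (Real.rpow_nonneg hd0.le r)
      · rw [hGx]
        have h1 : d ^ r ≤ (Λ * L) ^ r := Real.rpow_le_rpow hd0.le hdH hr.le
        rw [Real.mul_rpow hΛ0.le hL0.le] at h1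
        have h2 : L ^ r ≤ Real.log (Nat.nth Nat.Prime m) ^ r := Real.rpow_le_rpow hL0.le hlogm1 hr.le
        have h3 : 0 ≤ Λ ^ r := Real.rpow_nonneg hΛ0.le r
        calc d ^ r * G z ≤ (Λ ^ r * L ^ r) * (2 * G e) := by
              apply mul_le_mul h1 (by linarith) (by linarith) (by positivity)
          _ = Λ ^ r * (2 * G e) * L ^ r := by ring
          _ ≤ Λ ^ r * (2 * G e) * Real.log (Nat.nth Nat.Prime m) ^ r :=
              mul_le_mul_of_nonneg_left h2 (by positivity))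
  refine hmain.trans ?_
  rw [Nat.cast_le]
  refine card_le_card ?_
  intro n hn
  rw [mem_filter] at hn ⊢
  refine ⟨hn.1, ?_⟩
  obtain ⟨m, hm1, hm2⟩ := hn.2
  have hmn : m = n := Nat.nth_injective Nat.infinite_setOfPred_prime hm1
  rw [← hmn]
  exact hm2

open Classical in
theorem trans_homogP (hM : MasterT) (hT : Tra) (k : ℕ) (j : Fin k) (r : ℝ) (Φ : (Fin (k + 1) → ℝ) → ℝ)
    (hr : 0 < r)
    (hΦt : ∀ (t : ℝ) (x : Fin (k + 1) → ℝ), Φ (fun i => x i + t) = Φ x)
    (hΦ : ∀ t : ℝ, 0 < t → ∀ x : Fin (k + 1) → ℝ, Φ (t • x) = t ^ r * Φ x)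
    (hcont : ContinuousAt Φ (step k j)) (hpos : 0 < Φ (step k j)) (K : ℝ) :
    ∃ c C : ℝ, 0 < c ∧ ∃ N₀ : ℕ, ∀ N : ℕ, N₀ ≤ N →
      c * N ≤ (((range N).filter (fun n : ℕ =>
        K * Real.log (Nat.nth Nat.Prime n) ^ r ≤ Φ (fun i => (Nat.nth Nat.Prime (n + i) : ℝ)) ∧
        Φ (fun i => (Nat.nth Nat.Prime (n + i) : ℝ)) ≤ C * Real.log (Nat.nth Nat.Prime n) ^ r)).card : ℝ) := by
  obtain ⟨c, C, hc, N₀, hmain⟩ := homogP hM hT k j r (fun x => Φ (psum k x)) hr (by
    intro t ht x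
    show Φ (psum k (t • x)) = t ^ r * Φ (psum k x)
    rw [psum_smul, hΦ t ht]) (by
    have h1 : ContinuousAt Φ (psum k (Pi.single j 1)) := by rw [psum_single]; exact hcont
    exact ContinuousAt.comp (g := Φ) (f := psum k) h1 (psum_cont k).continuousAt) (by
    show 0 < Φ (psum k (Pi.single j 1))
    rw [psum_single]; exact hpos) K
  refine ⟨c, C, hc, N₀, fun N hN => (hmain N hN).trans (le_of_eq ?_)⟩
  congr 2
  apply filter_congr
  intro n _
  have e1 : Φ (fun i : Fin (k + 1) => (Nat.nth Nat.Prime (n + i) : ℝ)) = Φ (psum k (fun l => gp (n + l))) := by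
    rw [psum_gp, hΦt]
  rw [e1]

end Pool.Agent.T6.H2.LF
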