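import Mathlib

set_option autoImplicit false

/-! # Counting of the words which are stretched subwords of all words (helper2) -/

open Finset

namespace Pool.Agent.T6.H2.Ent

/-- a window of length `k` with many different values -/
theorem window_image {ι : Type} [DecidableEq ι] (N k : ℕ) (hk : 1 ≤ k) (hkN : k ≤ N) (c : ℕ → ι) :
    ∃ i₀, i₀ + k ≤ N ∧
      ((range N).image c).card ≤ (N / k + 1) * ((range k).image (fun i => c (i₀ + i))).card := by
  obtain ⟨i₀, hi₀, hmax⟩ := exists_max_image (range (N - k + 1)) (fun i₀ => ((range k).image (fun i => c (i₀ + i))).card)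
    ⟨0, by rw [mem_range]; omega⟩
  rw [mem_range] at hi₀
  refine ⟨i₀, by omega, ?_⟩
  set f : ℕ → Finset ι := fun i₀ => (range k).image (fun i => c (i₀ + i)) with hf
  set g : ℕ → ℕ := fun j => min (j * k) (N - k) with hg
  have hcov : (range N).image c ⊆ (range (N / k + 1)).biUnion (fun j => f (g j)) := by
    intro x hx
    obtain ⟨i, hi, rfl⟩ := mem_image.1 hx
    rw [mem_range] at hi
    rw [mem_biUnion]
    refine ⟨i / k, ?_, ?_⟩
    · rw [mem_range]
      exact Nat.lt_succ_of_le (Nat.div_le_div_right hi.le)
    · have h1 : i / k * k ≤ i := Nat.div_mul_le_self i k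
      have h2 : i < i / k * k + k := by
        have := Nat.lt_div_mul_add (a := i) hk
        exact this
      have h3 : g (i / k) ≤ i := (min_le_left _ _).trans h1
      have h4 : i < g (i / k) + k := by
        simp only [hg]
        rcases le_total (i / k * k) (N - k) with h5 | h5
        · rw [min_eq_left h5]; exact h2
        · rw [min_eq_right h5]; omega
      simp only [hf]
      rw [mem_image]
      refine ⟨i - g (i / k), ?_, ?_⟩
      · rw [mem_range]; omega
      · congr 1; omega
  refine (card_le_card hcov).trans (card_biUnion_le.trans ?_)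
  have h1 : ∀ j ∈ range (N / k + 1), (f (g j)).card ≤ (f i₀).card := by
    intro j _
    apply hmax
    rw [mem_range]
    have : g j ≤ N - k := min_le_right _ _
    omega
  refine (sum_le_card_nsmul _ _ _ h1).trans (le_of_eq ?_)
  rw [card_range, smul_eq_mul]

/-- the monotone maps are few -/
theorem card_monotone_le (k m : ℕ) (M : Finset (Fin k → Fin m)) (hM : ∀ g ∈ M, Monotone g) :
    M.card ≤ 2 ^ (m + k) := by
  classical
  have h1 : (M.image (fun g : Fin k → Fin m => (univ : Finset (Fin k)).image (fun i => (g i : ℕ) + i))).card =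
      M.card := by
    apply card_image_of_injOn
    intro g hg g' hg' h
    have hm := hM g hg
    have hm' := hM g' hg'
    have s1 : StrictMono (fun i : Fin k => (g i : ℕ) + i) := by
      intro i j hij
      have h2 : g i ≤ g j := hm hij.le
      have h3 : (i : ℕ) < j := hij
      have h4 : (g i : ℕ) ≤ g j := h2
      show (g i : ℕ) + i < (g j : ℕ) + j
      omega
    have s2 : StrictMono (fun i : Fin k => (g' i : ℕ) + i) := by
      intro i j hij
      have h2 : g' i ≤ g' j := hm' hij.le
      have h3 : (i : ℕ) < j := hij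
      have h4 : (g' i : ℕ) ≤ g' j := h2
      show (g' i : ℕ) + i < (g' j : ℕ) + j
      omega
    have h2 : Set.range (fun i : Fin k => (g i : ℕ) + i) = Set.range (fun i : Fin k => (g' i : ℕ) + i) := by
      have h3 := congrArg (fun s : Finset ℕ => (s : Set ℕ)) h
      simp only [coe_image, coe_univ, Set.image_univ] at h3
      exact h3
    have h3 := (s1.range_inj s2).1 h2
    funext i
    have h4 : (g i : ℕ) + i = (g' i : ℕ) + i := congrFun h3 i
    exact Fin.ext (by omega)
  rw [← h1]
  have h2 : M.image (fun g : Fin k → Fin m => (univ : Finset (Fin k)).image (fun i => (g i : ℕ) + i)) ⊆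
      (range (m + k)).powerset := by
    intro s hs
    obtain ⟨g, _, rfl⟩ := mem_image.1 hs
    rw [mem_powerset]
    intro x hx
    obtain ⟨i, _, rfl⟩ := mem_image.1 hx
    rw [mem_range]
    have := (g i).2
    have := i.2
    omega
  refine (card_le_card h2).trans (le_of_eq ?_)
  rw [card_powerset, card_range]

/-- the words which are stretched and shifted subwords of all words are many -/
theorem words_count (q k m ρ : ℕ) [NeZero q] (W : Finset (Fin k → (ZMod q)ˣ))
    (h : ∀ A : Fin m → (ZMod q)ˣ, ∃ (g : Fin k → Fin m) (w : Fin k → (ZMod q)ˣ) (u : (ZMod q)ˣ), Monotone g ∧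
      ρ ≤ (univ.image g).card ∧ w ∈ W ∧ ∀ i, (w i : ZMod q) + 1 = A (g i) + u) :
    q.totient ^ ρ ≤ W.card * 2 ^ (m + k) * q.totient := by
  classical
  obtain ⟨F, hF⟩ : ∃ F, F = q.totient := ⟨_, rfl⟩
  have hFc : Fintype.card (ZMod q)ˣ = F := by rw [hF]; exact ZMod.card_units_eq_totient q
  have hF0 : 0 < F := by rw [hF]; exact Nat.totient_pos.2 (Nat.pos_of_ne_zero (NeZero.ne q))
  rw [← hF]
  choose g w u hg1 hg2 hg3 hg4 using h
  have hρm : ρ ≤ m := by
    have h1 := hg2 (fun _ => 1)
    have h2 := card_le_univ (univ.image (g (fun _ => 1)))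
    rw [Fintype.card_fin] at h2
    exact h1.trans h2
  set M : Finset (Fin k → Fin m) := univ.filter (fun g => Monotone g ∧ ρ ≤ (univ.image g).card) with hM
  have hMc : M.card ≤ 2 ^ (m + k) := card_monotone_le k m M (fun g hg => (mem_filter.1 hg).2.1)
  have h1 : (univ : Finset (Fin m → (ZMod q)ˣ)).card ≤
      F ^ (m - ρ) * ((W ×ˢ M) ×ˢ (univ : Finset (ZMod q)ˣ)).card := by
    apply card_le_mul_card_image_of_maps_to (f := fun A => ((w A, g A), u A))
    · intro A _
      rw [mem_product, mem_product]
      exact ⟨⟨hg3 A, by rw [hM, mem_filter]; exact ⟨mem_univ _, hg1 A, hg2 A⟩⟩, mem_univ _⟩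
    · rintro ⟨⟨w₀, g₀⟩, u₀⟩ hwg
      rw [mem_product, mem_product] at hwg
      have hg₀ := (mem_filter.1 hwg.1.2).2.2
      simp only at hg₀
      -- restriction to the complement of the image
      set I := (univ.image g₀ : Finset (Fin m)) with hI
      have h2 : ((univ : Finset (Fin m → (ZMod q)ˣ)).filter (fun A => ((w A, g A), u A) = ((w₀, g₀), u₀))).card ≤
          (univ : Finset ({d : Fin m // d ∉ I} → (ZMod q)ˣ)).card := by
        apply card_le_card_of_injOn (fun A d => A d.1)
        · intro A _
          exact mem_coe.2 (mem_univ _)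
        · intro A hA A' hA' hAA
          rw [mem_coe, mem_filter] at hA hA'
          have e1 := hA.2
          have e2 := hA'.2
          rw [Prod.mk.injEq, Prod.mk.injEq] at e1 e2
          obtain ⟨⟨e1w, e1g⟩, e1u⟩ := e1
          obtain ⟨⟨e2w, e2g⟩, e2u⟩ := e2
          funext d
          by_cases hd : d ∈ I
          · rw [hI, mem_image] at hd
            obtain ⟨i, _, hi⟩ := hd
            have e3 := hg4 A i
            have e4 := hg4 A' i
            rw [e1w, e1g, e1u, hi] at e3
            rw [e2w, e2g, e2u, hi] at e4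
            rw [e3] at e4
            exact Units.ext (add_right_cancel e4)
          · exact congrFun hAA ⟨d, hd⟩
      refine h2.trans ?_
      rw [card_univ, Fintype.card_fun, hFc]
      have h3 : Fintype.card {d : Fin m // d ∉ I} = m - I.card := by
        rw [Fintype.card_subtype_compl, Fintype.card_fin]
        congr 1
        exact Fintype.card_coe I
      rw [h3]
      exact Nat.pow_le_pow_right hF0 (by omega)
  rw [card_univ, Fintype.card_fun, Fintype.card_fin, hFc, card_product, card_product, card_univ, hFc] at h1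
  have h2 : F ^ m = F ^ (m - ρ) * F ^ ρ := by
    rw [← pow_add]
    congr 1
    omega
  rw [h2] at h1
  have h3 := Nat.le_of_mul_le_mul_left h1 (Nat.pow_pos hF0)
  exact h3.trans (Nat.mul_le_mul_right _ (Nat.mul_le_mul_left _ hMc))

end Pool.Agent.T6.H2.Ent
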