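import Pool.Agent.H362R2.RQ.Comb

set_option autoImplicit false

/-! The final combination with a penalty for the pairs of primes (helper2) -/

namespace Pool.Agent.T6.H2.Ent

open Pool.Agent.H362R2.RQ

/-- the final combination -/
theorem combineE (Mm sK sJ s b g Z K m w A0 S1v Qv Tv Bv Pv LB UB E1 E2 E3 E4 M₂ : ℝ)
    (hMm : 0 < Mm) (hs : 0 < s) (hb : 0 < b) (hg : 0 < g) (hsK : 0 < sK) (hsJ : sJ * s = sK * b ^ 2)
    (hZ : 1 ≤ Z) (hm : 1 ≤ m) (hK : 0 < K) (hbm : b = m) (hsl : 8 * K * b * g ≤ s)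
    (hw : w = kap / (64 * g ^ 2)) (hA0 : A0 = w * s / b ^ 2)
    (hLB : LB = kap * (Z * Mm * sJ) - E2)
    (hUB : UB = Z * (Mm * (2 * (sK * (4 * g * b ^ 2 / s) ^ 2))) + E1)
    (H1 : S1v ≤ Z * (Mm * (2 * sK)) + E1) (H2 : m * A0 * LB - m * A0 ^ 2 * UB ≤ Qv)
    (H3 : Tv ≤ M₂ * (Mm * (2 * sK)) + E3) (H4 : Bv ≤ E4) (H5 : Pv ≤ K ^ 2 * UB)
    (hE1 : 0 ≤ E1)
    (hE : m * A0 * E2 + m * A0 ^ 2 * E1 + etaQ g * m * E1 + K * E3 + K * E4 + 2 * etaQ g * K ^ 2 * E1 ≤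
      etaQ g * (Z * Mm * sK))
    (hM₂ : K * M₂ ≤ etaQ g * Z) :
    0 < Qv - etaQ g * m * S1v - K * Tv - K * Bv - 2 * etaQ g / m * Pv := by
  set P := Z * Mm * sK with hP
  have hPpos : 0 < P := by rw [hP]; positivity
  have hη := etaQ_pos g hg
  have e1 : m * A0 * LB = m * (w * kap) * P - m * A0 * E2 := by
    have h1 : A0 * sJ = w * sK := by
      rw [hA0]
      have : w * s / b ^ 2 * sJ = w * (sJ * s) / b ^ 2 := by ring
      rw [this, hsJ]
      field_simp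
    rw [hLB, hP]
    calc m * A0 * (kap * (Z * Mm * sJ) - E2) = m * kap * Z * Mm * (A0 * sJ) - m * A0 * E2 := by ring
      _ = _ := by rw [h1]; ring
  have e2 : m * A0 ^ 2 * UB = m * (32 * g ^ 2 * w ^ 2) * P + m * A0 ^ 2 * E1 := by
    have h1 : A0 ^ 2 * (4 * g * b ^ 2 / s) ^ 2 = 16 * g ^ 2 * w ^ 2 := by
      rw [hA0]
      field_simp
      ring
    rw [hUB, hP]
    calc m * A0 ^ 2 * (Z * (Mm * (2 * (sK * (4 * g * b ^ 2 / s) ^ 2))) + E1)
        = m * 2 * Z * Mm * sK * (A0 ^ 2 * (4 * g * b ^ 2 / s) ^ 2) + m * A0 ^ 2 * E1 := by ring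
      _ = _ := by rw [h1]; ring
  have e3 : w * kap - 32 * g ^ 2 * w ^ 2 = 8 * etaQ g := by
    rw [hw]
    unfold etaQ
    field_simp
    ring
  have h1 : 8 * etaQ g * m * P - m * A0 * E2 - m * A0 ^ 2 * E1 ≤ Qv := by
    refine le_trans (le_of_eq ?_) H2
    rw [e1, e2, ← e3]
    ring
  have h2 : etaQ g * m * S1v ≤ 2 * (etaQ g * m * P) + etaQ g * m * E1 := by
    have := mul_le_mul_of_nonneg_left H1 (show 0 ≤ etaQ g * m by positivity)
    refine this.trans (le_of_eq ?_)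
    rw [hP]; ring
  have h3 : K * Tv ≤ 2 * (etaQ g * P) + K * E3 := by
    have h4 := mul_le_mul_of_nonneg_left H3 hK.le
    have h5 : K * M₂ * (Mm * (2 * sK)) ≤ etaQ g * Z * (Mm * (2 * sK)) :=
      mul_le_mul_of_nonneg_right hM₂ (by positivity)
    calc K * Tv ≤ K * (M₂ * (Mm * (2 * sK)) + E3) := h4
      _ = K * M₂ * (Mm * (2 * sK)) + K * E3 := by ring
      _ ≤ etaQ g * Z * (Mm * (2 * sK)) + K * E3 := by linarith
      _ = _ := by rw [hP]; ring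
  have h4 : K * Bv ≤ K * E4 := mul_le_mul_of_nonneg_left H4 hK.le
  have h5 : etaQ g * P ≤ etaQ g * m * P := by
    have : etaQ g * P * 1 ≤ etaQ g * P * m := mul_le_mul_of_nonneg_left hm (by positivity)
    linarith
  have h6 : 0 < etaQ g * P := by positivity
  have h7 : 2 * etaQ g / m * Pv ≤ etaQ g * m * P + 2 * etaQ g * K ^ 2 * E1 := by
    have hm0 : 0 < m := by linarith
    have h8 : 4 * g * b ^ 2 / s ≤ m / (2 * K) := by
      rw [div_le_div_iff₀ hs (by positivity)]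
      have h9 : m * (8 * K * b * g) ≤ m * s := mul_le_mul_of_nonneg_left hsl hm0.le
      calc 4 * g * b ^ 2 * (2 * K) = m * (8 * K * b * g) := by rw [hbm]; ring
        _ ≤ m * s := h9
    have h9 : (4 * g * b ^ 2 / s) ^ 2 ≤ (m / (2 * K)) ^ 2 := pow_le_pow_left₀ (by positivity) h8 2
    have h10 : K ^ 2 * UB ≤ P * (m ^ 2 / 2) + K ^ 2 * E1 := by
      rw [hUB, mul_add]
      have h11 : K ^ 2 * (Z * (Mm * (2 * (sK * (4 * g * b ^ 2 / s) ^ 2)))) ≤
          K ^ 2 * (Z * (Mm * (2 * (sK * (m / (2 * K)) ^ 2)))) := by gcongr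
      have h12 : K ^ 2 * (Z * (Mm * (2 * (sK * (m / (2 * K)) ^ 2)))) = P * (m ^ 2 / 2) := by
        rw [hP]
        field_simp
      linarith
    have h13 := mul_le_mul_of_nonneg_left (H5.trans h10) (show 0 ≤ 2 * etaQ g / m by positivity)
    refine h13.trans ?_
    have h14 : 2 * etaQ g / m * (P * (m ^ 2 / 2) + K ^ 2 * E1) = etaQ g * m * P + 2 * etaQ g * K ^ 2 * E1 / m := by
      field_simp
    rw [h14]
    have h15 : 2 * etaQ g * K ^ 2 * E1 / m ≤ 2 * etaQ g * K ^ 2 * E1 :=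
      div_le_self (by positivity) hm
    linarith
  linarith

end Pool.Agent.T6.H2.Ent
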