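import Pool.Agent.T6.H2.EPat

/-! # The number of the residue patterns of strings of consecutive record gaps (helper2) -/

set_option autoImplicit false

open Finset Filter

namespace Pool.Agent.T6.H2.Ent

open Pool.Agent.H256R2.SC (ff)
open Pool.Agent.H312R2.RG.C3 (ff_tendsto ff_lower ff_small ff_upper)
open Pool.Agent.H362R2.RQ
open Pool.Agent.T6.H2.LF (nth_mono nth_mono_real)

/-- the first indices `n` of the strings of `k` consecutive primes `p_n, …, p_{n+k-1}` in `(X, 4X]`, in the classes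
`w 0, …, w (k-1)` modulo `q`, with all gaps between `H` and `C H` -/
def StrSet (k q : ℕ) (w : Fin k → (ZMod q)ˣ) (C X H : ℝ) : Set ℕ :=
  {n : ℕ | X < Nat.nth Nat.Prime n ∧ (Nat.nth Nat.Prime (n + k - 1) : ℝ) ≤ 4 * X ∧
    (∀ i : Fin k, ((Nat.nth Nat.Prime (n + i) : ℕ) : ZMod q) = (w i : ZMod q)) ∧
    ∀ i, i + 1 < k → H ≤ (Nat.nth Nat.Prime (n + i + 1) : ℝ) - Nat.nth Nat.Prime (n + i) ∧
      (Nat.nth Nat.Prime (n + i + 1) : ℝ) - Nat.nth Nat.Prime (n + i) ≤ C * H}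

theorem strSet_finite (k q : ℕ) (hk : 1 ≤ k) (w : Fin k → (ZMod q)ˣ) (C X H : ℝ) : (StrSet k q w C X H).Finite := by
  refine (Set.finite_Iic ⌊4 * X⌋₊).subset ?_
  rintro n ⟨-, h2, -⟩
  rw [Set.mem_Iic]
  refine Nat.le_floor (le_trans ?_ h2)
  have h3 : n + k - 1 ≤ Nat.nth Nat.Prime (n + k - 1) :=
    (Nat.nth_strictMono Nat.infinite_setOfPred_prime).le_apply
  have h4 : n ≤ n + k - 1 := by omega
  exact_mod_cast h4.trans h3

theorem good_words (h : StE) : ∃ η T : ℝ, 0 < η ∧ 0 < T ∧ ∀ k m : ℕ, 1 ≤ k → (k : ℝ) ≤ η * m →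
    ∃ C c : ℝ, 1 ≤ C ∧ 0 < c ∧ ∀ q : ℕ, 1 ≤ q → ∃ X0 : ℝ, ∀ X : ℝ, X0 ≤ X →
    ∀ H : ℝ, Real.log X ≤ H → H ≤ c * ff X → ∀ A : Fin m → (ZMod q)ˣ,
    ∃ (g : Fin k → Fin m) (w : Fin k → (ZMod q)ˣ) (u : (ZMod q)ˣ), Monotone g ∧
      η * k ≤ (T + η) * ((univ.image g).card : ℝ) ∧ (∀ i, (w i : ZMod q) + 1 = A (g i) + u) ∧
      X ^ (7 / 8 : ℝ) ≤ ((StrSet k q w C X H).ncard : ℝ) := by
  classical
  obtain ⟨η, T, hη, hT, hmain⟩ := piece h
  refine ⟨η, T, hη, hT, ?_⟩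
  intro k m hk hkm
  obtain ⟨C, c, hC, hc, hpc⟩ := hmain k m hk hkm
  refine ⟨C, c, hC, hc, ?_⟩
  intro q hq
  have : NeZero q := ⟨by omega⟩
  obtain ⟨X1, hX1⟩ := hpc q hq
  obtain ⟨M, hM⟩ : ∃ M : ℝ, M = Fintype.card (Fin k → (ZMod q)ˣ) + 1 := ⟨_, rfl⟩
  have hM1 : 1 ≤ M := by
    rw [hM]
    have : (0 : ℝ) ≤ Fintype.card (Fin k → (ZMod q)ˣ) := Nat.cast_nonneg _
    linarith
  have hc' : 0 < M * (C * c + 1) := by positivity
  obtain ⟨X2, hX2⟩ := Filter.eventually_atTop.1 ((ev_bad (M * (C * c + 1)) hc').and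
    ((ff_small (C * c) (by positivity)).and ((ff_tendsto.eventually_ge_atTop 1).and
      (eventually_ge_atTop (Real.exp 1)))))
  refine ⟨max X1 X2, ?_⟩
  intro X hX H hlH hHc A
  obtain ⟨hbadX, hsmall, hffpos, hXe⟩ := hX2 X ((le_max_right _ _).trans hX)
  have hXpos : 0 < X := (Real.exp_pos 1).trans_le hXe
  have hlog : 1 ≤ Real.log X := by
    rw [Real.le_log_iff_exp_le hXpos]; exact hXe
  have hH0 : 0 < H := by linarith
  have hCHf : C * H ≤ C * c * ff X := by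
    have := mul_le_mul_of_nonneg_left hHc (show (0 : ℝ) ≤ C by linarith)
    linarith
  have hCH0 : 0 ≤ C * H := by positivity
  set Ws : Finset (Fin k → (ZMod q)ˣ) := univ.filter
    (fun w => ((StrSet k q w C X H).ncard : ℝ) < X ^ (7 / 8 : ℝ)) with hWs
  set bad : Finset ℕ := Ws.biUnion (fun w =>
    ((strSet_finite k q hk w C X H).toFinset).biUnion
      (fun n => Icc (Nat.nth Nat.Prime n - ⌊C * H⌋₊) (Nat.nth Nat.Prime n))) with hbaddef
  have hbadcard : (bad.card : ℝ) ≤ X ^ (9 / 10 : ℝ) := by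
    have hone : ∀ w ∈ Ws, ((((strSet_finite k q hk w C X H).toFinset).biUnion
      (fun n => Icc (Nat.nth Nat.Prime n - ⌊C * H⌋₊) (Nat.nth Nat.Prime n))).card : ℝ) ≤
        X ^ (7 / 8 : ℝ) * (C * c * ff X + 1) := by
      intro w hw
      rw [hWs, mem_filter] at hw
      have h1 : (((strSet_finite k q hk w C X H).toFinset).biUnion
        (fun n => Icc (Nat.nth Nat.Prime n - ⌊C * H⌋₊) (Nat.nth Nat.Prime n))).card ≤
          (strSet_finite k q hk w C X H).toFinset.card * (⌊C * H⌋₊ + 1) := by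
        refine card_biUnion_le.trans ?_
        refine (sum_le_card_nsmul _ _ (⌊C * H⌋₊ + 1) ?_).trans (le_of_eq (by rw [smul_eq_mul]))
        intro n _
        rw [Nat.card_Icc]
        omega
      have h2 := hw.2
      rw [Set.ncard_eq_toFinset_card _ (strSet_finite k q hk w C X H)] at h2
      have h3 : ((⌊C * H⌋₊ + 1 : ℕ) : ℝ) ≤ C * c * ff X + 1 := by
        push_cast
        have := Nat.floor_le hCH0
        linarith
      calc _ ≤ (((strSet_finite k q hk w C X H).toFinset.card * (⌊C * H⌋₊ + 1) : ℕ) : ℝ) := by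
            exact_mod_cast h1
        _ = ((strSet_finite k q hk w C X H).toFinset.card : ℝ) * ((⌊C * H⌋₊ + 1 : ℕ) : ℝ) := by
            push_cast; ring
        _ ≤ _ := mul_le_mul h2.le h3 (Nat.cast_nonneg _) (Real.rpow_nonneg (by linarith) _)
    have h1 : (bad.card : ℝ) ≤ Ws.card * (X ^ (7 / 8 : ℝ) * (C * c * ff X + 1)) := by
      have h2 : (bad.card : ℝ) ≤ ∑ w ∈ Ws, ((((strSet_finite k q hk w C X H).toFinset).biUnion
          (fun n => Icc (Nat.nth Nat.Prime n - ⌊C * H⌋₊) (Nat.nth Nat.Prime n))).card : ℝ) := by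
        exact_mod_cast card_biUnion_le
      refine h2.trans ((sum_le_sum hone).trans (le_of_eq ?_))
      rw [sum_const, nsmul_eq_mul]
    have h2 : (Ws.card : ℝ) ≤ M := by
      have h3 := card_le_univ Ws
      have h4 : (Ws.card : ℝ) ≤ Fintype.card (Fin k → (ZMod q)ˣ) := by exact_mod_cast h3
      rw [hM]; linarith
    have hXnn : 0 ≤ X ^ (7 / 8 : ℝ) := Real.rpow_nonneg (by linarith) _
    have hcc : 0 ≤ C * c := by positivity
    have h3 : 0 ≤ C * c * ff X + 1 := by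
      have := mul_nonneg hcc (show (0 : ℝ) ≤ ff X by linarith)
      linarith
    calc (bad.card : ℝ) ≤ Ws.card * (X ^ (7 / 8 : ℝ) * (C * c * ff X + 1)) := h1
      _ ≤ M * (X ^ (7 / 8 : ℝ) * (C * c * ff X + 1)) := mul_le_mul_of_nonneg_right h2 (mul_nonneg hXnn h3)
      _ = X ^ (7 / 8 : ℝ) * (M * (C * c * ff X + 1)) := by ring
      _ ≤ X ^ (7 / 8 : ℝ) * (M * (C * c + 1) * ff X + 1) := by
          apply mul_le_mul_of_nonneg_left _ hXnn
          have h4 : M * 1 ≤ M * ff X := mul_le_mul_of_nonneg_left hffpos (by linarith)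
          have e1 : M * (C * c * ff X + 1) = M * (C * c) * ff X + M := by ring
          have e2 : M * (C * c + 1) * ff X + 1 = M * (C * c) * ff X + M * ff X + 1 := by ring
          rw [e1, e2]
          linarith
      _ ≤ _ := hbadX
  obtain ⟨n₀, n, g, w, u, hn1, hn2, hn3, hgm, hgc, hwu, hs1, hs2, hs3, hs4⟩ :=
    hX1 X ((le_max_left _ _).trans hX) H hlH hHc A bad hbadcard
  have hs1r : (n₀ : ℝ) ≤ Nat.nth Nat.Prime n := by exact_mod_cast hs1
  refine ⟨g, w, u, hgm, hgc, hwu, ?_⟩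
  by_contra hcon
  push Not at hcon
  apply hn3
  rw [hbaddef, mem_biUnion]
  refine ⟨w, ?_, ?_⟩
  · rw [hWs, mem_filter]
    exact ⟨mem_univ _, hcon⟩
  rw [mem_biUnion]
  refine ⟨n, ?_, ?_⟩
  · rw [Set.Finite.mem_toFinset]
    exact ⟨by linarith, by linarith, hs3, hs4⟩
  · rw [mem_Icc]
    have h2 : (Nat.nth Nat.Prime n : ℝ) ≤ n₀ + C * H := (nth_mono_real (by omega)).trans hs2
    have h3 : Nat.nth Nat.Prime n - n₀ ≤ ⌊C * H⌋₊ := by
      apply Nat.le_floor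
      rw [Nat.cast_sub hs1]
      linarith
    omega

/-- the number of the patterns grows exponentially, with an exponent proportional to `log φ(q)` -/
theorem entropy (h : StE) : ∃ (δ : ℝ) (C₀ : ℕ), 0 < δ ∧ ∀ k : ℕ, C₀ ≤ k → ∃ C c : ℝ, 0 < c ∧
    ∀ q : ℕ, C₀ ≤ q.totient → ∃ X₀ : ℝ, ∀ X : ℝ, X₀ ≤ X →
    ∀ H : ℝ, Real.log X ≤ H → H ≤ c * ff X →
    ∃ W : Finset (Fin k → (ZMod q)ˣ), (q.totient : ℝ) ^ (δ * k) ≤ (W.card : ℝ) ∧
      ∀ w ∈ W, X ^ (7 / 8 : ℝ) ≤ ((StrSet k q w C X H).ncard : ℝ) := by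
  classical
  obtain ⟨η, T, hη, hT, hmain⟩ := good_words h
  obtain ⟨δ, hδ⟩ : ∃ δ : ℝ, δ = η / (4 * (T + η)) := ⟨_, rfl⟩
  have hδ0 : 0 < δ := by rw [hδ]; positivity
  have hδη : 4 * δ = η / (T + η) := by rw [hδ]; field_simp
  obtain ⟨B, hB⟩ : ∃ B : ℝ, B = 2 + 1 / η := ⟨_, rfl⟩
  have hB0 : 0 < B := by rw [hB]; positivity
  refine ⟨δ, max 1 (max ⌈(2 : ℝ) ^ (B / δ)⌉₊ ⌈1 / (2 * δ)⌉₊), hδ0, ?_⟩
  intro k hk
  have hk1 : 1 ≤ k := (le_max_left _ _).trans hk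
  have hk2 : 1 / (2 * δ) ≤ k := by
    have h1 : ⌈1 / (2 * δ)⌉₊ ≤ k := (le_max_right _ _).trans ((le_max_right _ _).trans hk)
    exact (Nat.le_ceil _).trans (by exact_mod_cast h1)
  have hkr : (1 : ℝ) ≤ k := by exact_mod_cast hk1
  obtain ⟨m, hm⟩ : ∃ m : ℕ, m = ⌈(k : ℝ) / η⌉₊ := ⟨_, rfl⟩
  have hm1 : (k : ℝ) / η ≤ m := by rw [hm]; exact Nat.le_ceil _
  have hm2 : (m : ℝ) ≤ k / η + 1 := by
    rw [hm]; exact (Nat.ceil_lt_add_one (by positivity)).le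
  have hkm : (k : ℝ) ≤ η * m := by
    rw [div_le_iff₀ hη] at hm1
    linarith
  obtain ⟨C, c, hC, hc, hgw⟩ := hmain k m hk1 hkm
  refine ⟨C, c, hc, ?_⟩
  intro q hqC
  have hq0 : 0 < q := by
    apply Nat.totient_pos.1
    have : 1 ≤ q.totient := (le_max_left _ _).trans hqC
    omega
  have : NeZero q := ⟨hq0.ne'⟩
  obtain ⟨X0, hX0⟩ := hgw q hq0
  refine ⟨X0, ?_⟩
  intro X hX H hlH hHc
  set W : Finset (Fin k → (ZMod q)ˣ) := univ.filter
    (fun w => X ^ (7 / 8 : ℝ) ≤ ((StrSet k q w C X H).ncard : ℝ)) with hW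
  refine ⟨W, ?_, fun w hw => (mem_filter.1 hw).2⟩
  set ρ : ℕ := ⌈η * k / (T + η)⌉₊ with hρ
  have hcount := words_count q k m ρ W (by
    intro A
    obtain ⟨g, w, u, hg1, hg2, hwu, hg3⟩ := hX0 X hX H hlH hHc A
    refine ⟨g, w, u, hg1, ?_, ?_, hwu⟩
    · rw [hρ, Nat.ceil_le, div_le_iff₀ (by positivity)]
      linarith
    · rw [hW, mem_filter]
      exact ⟨mem_univ _, hg3⟩)
  have hcr : ((q.totient : ℝ)) ^ ρ ≤ (W.card : ℝ) * 2 ^ (m + k) * q.totient := by exact_mod_cast hcount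
  set F : ℝ := (q.totient : ℝ) with hF
  have hF1 : 1 ≤ F := by
    have := Nat.totient_pos.2 hq0
    rw [hF]; exact_mod_cast this
  have hF0 : 0 < F := by linarith
  have hFC : (2 : ℝ) ^ (B / δ) ≤ F := by
    have h1 : ((⌈(2 : ℝ) ^ (B / δ)⌉₊ : ℕ) : ℝ) ≤ F := by
      rw [hF]; exact_mod_cast (le_max_left _ _).trans ((le_max_right _ _).trans hqC)
    exact (Nat.le_ceil _).trans h1
  have h1 : F ^ (δ * k) * F ^ (δ * k) * F ≤ F ^ ρ := by
    have e1 : F ^ (δ * k) * F ^ (δ * k) * F = F ^ (δ * k + δ * k + 1) := by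
      rw [Real.rpow_add hF0, Real.rpow_add hF0, Real.rpow_one]
    rw [e1, ← Real.rpow_natCast F ρ]
    apply Real.rpow_le_rpow_of_exponent_le hF1
    have h2 : η * k / (T + η) ≤ ρ := Nat.le_ceil _
    have h3 : η * k / (T + η) = 4 * δ * k := by rw [hδη]; ring
    rw [h3] at h2
    have h4 : 1 ≤ 2 * δ * k := by
      rw [div_le_iff₀ (by positivity)] at hk2
      linarith
    linarith
  have h2 : (2 : ℝ) ^ (m + k) ≤ F ^ (δ * k) := by
    have h3 : (2 : ℝ) ^ (m + k) ≤ (2 : ℝ) ^ (B * k) := by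
      rw [← Real.rpow_natCast 2 (m + k)]
      apply Real.rpow_le_rpow_of_exponent_le (by norm_num)
      push_cast
      rw [hB]
      have : (2 + 1 / η) * k = 2 * k + k / η := by ring
      rw [this]
      linarith
    refine h3.trans ?_
    have h4 : (2 : ℝ) ^ (B * k) = ((2 : ℝ) ^ (B / δ)) ^ (δ * k) := by
      rw [← Real.rpow_mul (by norm_num)]
      congr 1
      field_simp
    rw [h4]
    exact Real.rpow_le_rpow (by positivity) hFC (by positivity)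
  have h3 : 0 < F ^ (δ * k) := Real.rpow_pos_of_pos hF0 _
  have h4 : F ^ (δ * k) * (F ^ (δ * k) * F) ≤ (W.card : ℝ) * (F ^ (δ * k) * F) := by
    have h5 : (W.card : ℝ) * 2 ^ (m + k) * F ≤ (W.card : ℝ) * F ^ (δ * k) * F :=
      mul_le_mul_of_nonneg_right (mul_le_mul_of_nonneg_left h2 (Nat.cast_nonneg _)) hF0.le
    have h6 := (h1.trans hcr).trans h5
    linarith
  exact le_of_mul_le_mul_right h4 (mul_pos h3 hF0)

end Pool.Agent.T6.H2.Ent
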