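import Pool.Agent.H312R2.RG.A
import Pool.Agent.H312R2.RG.VW
import Pool.Agent.H378R2.Final
import Pool.Agent.H362R2.RQ.Unif
import Pool.Agent.H362R2.RQ.Main
import Pool.Agent.T6.H2.EFam
import Pool.Agent.T6.H2.EPos

set_option autoImplicit false

/-! # The coloured Maynard-Tao theorem inside the record windows, with few primes (helper2)

The window contains primes of a positive proportion of the `m` colours, and at the same time at most `T m` primes.
Adapted from `Pool.Agent.H362R2.RQ.rq_of` (helper362). -/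

open Finset Filter
open scoped ContDiff

namespace Pool.Agent.T6.H2.Ent

open Pool.Agent.H362R2.RQ

open Pool.Agent.H378R2
open Pool.Agent.H312R2.RG
open Pool.Agent.H398R2.PG (Et EE_sub_Et Et_res)
open Pool.Agent.H256R2.SC (ff)

/-- the coloured Maynard-Tao theorem inside the record windows, with at most `T m` primes -/
def StE : Prop := ∃ η T : ℝ, 0 < η ∧ 0 < T ∧ ∀ m : ℕ, 1 ≤ m → ∃ K : ℕ, m ≤ K ∧ ∃ c : ℝ, 0 < c ∧
  ∀ z : ℕ, ∃ X0 : ℝ, ∀ X : ℝ, X0 ≤ X →
  ∀ t : Fin K → ℕ, Function.Injective t →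
  (∀ j, (t j).Prime ∧ yy X < t j ∧ (t j : ℝ) ≤ c * ff X) →
  ∀ col : Fin K → Fin m, (∀ d, K ≤ 2 * m * fib col d) →
  ∀ bad : Finset ℕ, (bad.card : ℝ) ≤ X ^ (9 / 10 : ℝ) →
  ∃ n : ℕ, X < n ∧ (n : ℝ) ≤ 3 * X ∧ n ∉ bad ∧
    (∃ D : Finset (Fin m), η * m ≤ D.card ∧ ∀ d ∈ D, ∃ j, col j = d ∧ (n + t j).Prime) ∧
    ((((univ : Finset (Fin K)).filter (fun j => (n + t j).Prime)).card : ℕ) : ℝ) ≤ T * m ∧
    (∀ s : ℕ, (s : ℝ) ≤ c * ff X → (n + s).Prime → ∃ j, s = t j) ∧
    ∀ p : ℕ, p.Prime → p ≤ z → p ∣ n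

/-- many primes make the sum over the pairs large -/
theorem pairs_big {K : ℕ} (m : ℕ) (hm : 1 ≤ m) (η : ℝ) (hη : 0 < η) (θ : Fin K → ℝ) (h0 : ∀ i, 0 ≤ θ i)
    (P : Finset (Fin K)) (hP : ∀ i ∈ P, 1 / 2 ≤ θ i)
    (h : 2 * η / m * ∑ i, ∑ j ∈ univ.filter (fun j => i ≠ j), θ i * θ j < m) :
    (P.card : ℝ) ≤ (2 + 2 / η) * m := by
  classical
  have hmr : (1 : ℝ) ≤ m := by exact_mod_cast hm
  have hm0 : (0 : ℝ) < m := by linarith
  by_contra hcon
  push Not at hcon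
  have h1 : ((P.card : ℝ) * (P.card - 1)) / 4 ≤ ∑ i, ∑ j ∈ univ.filter (fun j => i ≠ j), θ i * θ j := by
    have h2 : ∑ i ∈ P, ∑ j ∈ P.filter (fun j => i ≠ j), θ i * θ j ≤
        ∑ i, ∑ j ∈ univ.filter (fun j => i ≠ j), θ i * θ j := by
      calc ∑ i ∈ P, ∑ j ∈ P.filter (fun j => i ≠ j), θ i * θ j
          ≤ ∑ i ∈ P, ∑ j ∈ univ.filter (fun j => i ≠ j), θ i * θ j := by
            refine Finset.sum_le_sum fun i _ => ?_
            refine Finset.sum_le_sum_of_subset_of_nonneg ?_ fun j _ _ => mul_nonneg (h0 i) (h0 j)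
            exact Finset.filter_subset_filter _ (Finset.subset_univ P)
        _ ≤ _ := Finset.sum_le_sum_of_subset_of_nonneg (Finset.subset_univ P) fun i _ _ =>
            Finset.sum_nonneg fun j _ => mul_nonneg (h0 i) (h0 j)
    refine le_trans ?_ h2
    have h3 : ∀ i ∈ P, ((P.card : ℝ) - 1) * (1 / 4) ≤ ∑ j ∈ P.filter (fun j => i ≠ j), θ i * θ j := by
      intro i hi
      have h4 : P.filter (fun j => i ≠ j) = P.erase i := by
        ext j
        rw [Finset.mem_filter, Finset.mem_erase]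
        constructor
        · rintro ⟨h5, h6⟩; exact ⟨fun h => h6 h.symm, h5⟩
        · rintro ⟨h5, h6⟩; exact ⟨h6, fun h => h5 h.symm⟩
      rw [h4]
      have h5 : ∀ j ∈ P.erase i, (1 / 4 : ℝ) ≤ θ i * θ j := by
        intro j hj
        have h6 := hP i hi
        have h7 := hP j (Finset.mem_of_mem_erase hj)
        nlinarith
      have h6 := Finset.card_nsmul_le_sum _ _ _ h5
      rw [Finset.card_erase_of_mem hi, nsmul_eq_mul, Nat.cast_sub (Finset.card_pos.2 ⟨i, hi⟩), Nat.cast_one] at h6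
      exact h6
    have h4 := Finset.sum_le_sum h3
    rw [Finset.sum_const, nsmul_eq_mul] at h4
    refine le_trans (le_of_eq ?_) h4
    ring
  have h2 : 2 * η / m * (((P.card : ℝ) * (P.card - 1)) / 4) < m :=
    lt_of_le_of_lt (mul_le_mul_of_nonneg_left h1 (by positivity)) h
  set N : ℝ := (P.card : ℝ) with hN
  have h3 : 0 < 2 / η := by positivity
  have h4 : (1 + 2 / η) * m ≤ N - 1 := by nlinarith
  have h5 : (2 + 2 / η) * m * ((1 + 2 / η) * m) ≤ N * (N - 1) := by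
    apply mul_le_mul hcon.le h4 (by positivity)
    have : 0 < (2 + 2 / η) * m := by positivity
    linarith
  have h6 : 2 * η / m * (N * (N - 1) / 4) = η * (N * (N - 1)) / (2 * m) := by
    field_simp
    ring
  rw [h6, div_lt_iff₀ (by positivity)] at h2
  have h7 : η * ((2 + 2 / η) * m * ((1 + 2 / η) * m)) ≤ η * (N * (N - 1)) := mul_le_mul_of_nonneg_left h5 hη.le
  have h8 : η * ((2 + 2 / η) * m * ((1 + 2 / η) * m)) = (2 * η + 2) * (1 + 2 / η) * (m * m) := by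
    field_simp
  have h9 : 2 * (m : ℝ) * m ≤ (2 * η + 2) * (1 + 2 / η) * (m * m) := by
    have h10 : 2 ≤ (2 * η + 2) * (1 + 2 / η) := by nlinarith
    nlinarith [mul_pos hm0 hm0]
  linarith

/-- the coloured Maynard-Tao theorem inside the record windows, with few primes -/
theorem ste_of (h5 : Pool.Agent.H378R2.SieveAsymp) (hbv : Pool.Agent.H378R2.BVrel) (hcov : CovR0)
    (hw : Weights) : StE := by
  classical
  have hg := gam_pos
  have hη := etaQ_pos gam hg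
  have hkap := kap_pos
  refine ⟨etaQ gam, 2 + 2 / etaQ gam, hη, by positivity, ?_⟩
  intro m hm
  obtain ⟨K0, f, c, A, rho, s, hK0, hsm, hcs, hf0, hc, hA, hf1, hf00, hrho, hsr, hDD, hs0, hsge, hsle, hIpos, hIle, hJ⟩ :=
    familyQ2 m hm
  have hA1 : ∀ a ∈ A, ∑ j, c (a j) ≤ 1 := fun a ha => (hA a ha).trans (by norm_num)
  have hmr : (1 : ℝ) ≤ m := by exact_mod_cast hm
  have hmr0 : (0 : ℝ) < m := by linarith
  have hKpos : (0 : ℝ) < ((K0 + 1 : ℕ) : ℝ) := by positivity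
  obtain ⟨w, hwdef⟩ : ∃ w : ℝ, w = kap / (64 * gam ^ 2) := ⟨_, rfl⟩
  have hwpos : 0 < w := by rw [hwdef]; positivity
  obtain ⟨A0, hA0⟩ : ∃ A0 : ℝ, A0 = w * s / (m : ℝ) ^ 2 := ⟨_, rfl⟩
  have hA0pos : 0 < A0 := by rw [hA0]; positivity
  obtain ⟨ε1, hε1⟩ : ∃ ε1 : ℝ, ε1 = min (min (s ^ (K0 + 1)) (s ^ K0 * (m : ℝ) ^ 2 / 3))
    (s ^ (K0 + 1) * (4 * gam * (m : ℝ) ^ 2 / s) ^ 2) := ⟨_, rfl⟩
  have hε1pos : 0 < ε1 := by
    rw [hε1]
    refine lt_min (lt_min ?_ ?_) ?_ <;> positivity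
  have hε1a : ε1 ≤ s ^ (K0 + 1) := by rw [hε1]; exact (min_le_left _ _).trans (min_le_left _ _)
  have hε1b : ε1 ≤ s ^ K0 * (m : ℝ) ^ 2 / 3 := by rw [hε1]; exact (min_le_left _ _).trans (min_le_right _ _)
  have hε1c : ε1 ≤ s ^ (K0 + 1) * (4 * gam * (m : ℝ) ^ 2 / s) ^ 2 := by rw [hε1]; exact min_le_right _ _
  obtain ⟨Aw, c₃, hc₃, hw1⟩ := hw (K0 + 1) (K0 + 5)
  obtain ⟨c₂, hc₂, hcov0⟩ := hcov (K0 + 1) (c₃ / 2) (by positivity)
  have hmK : m ≤ K0 + 1 := by
    rw [hK0]; exact (Nat.lt_two_pow_self).le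
  refine ⟨K0 + 1, hmK, c₂, hc₂, fun z => ?_⟩
  obtain ⟨X2, hcov1⟩ := hcov0 z
  obtain ⟨Z, hZdef⟩ : ∃ Z : ℕ, Z = max 2 z := ⟨_, rfl⟩
  rw [← hZdef] at hcov1
  obtain ⟨X3, hbvX⟩ := hbv Aw (max Z 4)
  have hw2 := hw1 (max Z 4)
  obtain ⟨e0, he0⟩ : ∃ e0 : ℝ, e0 = etaQ gam * s ^ (K0 + 1) / 40 := ⟨_, rfl⟩
  have he0pos : 0 < e0 := by rw [he0]; positivity
  obtain ⟨C, hC⟩ : ∃ C : ℝ, C = m * A0 + m * A0 ^ 2 + etaQ gam * m + ((K0 + 1 : ℕ) : ℝ) +
    2 * etaQ gam * ((K0 + 1 : ℕ) : ℝ) ^ 2 := ⟨_, rfl⟩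
  have hCpos : 0 < C := by rw [hC]; positivity
  have hη1 : 0 < e0 / (m * A0 + 1) := by positivity
  rw [← Filter.eventually_atTop]
  filter_upwards [S1_boundV h5 f c A hsm hcs hf0 hc hA1 hf1 ε1 hε1pos,
    S2_boundV h5 f c A hsm hcs hf0 hc hA1 hf1 ε1 hε1pos,
    pair_boundV h5 f c rho s A hsm hcs hf0 hc hA hf1 hf00 hrho hsr hs0 hDD ε1 hε1pos,
    LPhi_ge, errRG (K0 + 1) A.card (e0 / (m * A0 + 1)) (Nat.cast_nonneg _) hη1,
    LL_tendsto.eventually_ge_atTop 1, eventually_ge_atTop 40, eventually_ge_atTop X2, eventually_ge_atTop X3,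
    Et2_sub (K := K0 + 1), BE_Et2_ge (K0 + 1), ev_ff c₂ hc₂, hw2,
    ev_mainQ K0 (3 * C * (A.card : ℝ) ^ 2 / e0) (((K0 + 1 : ℕ) : ℝ) / etaQ gam),
    Real.tendsto_log_atTop.eventually_ge_atTop (2 / c₃)]
    with X hS1 hS2 hPS hLP herr hL1 hX40 hX2 hX3 hEtsub hBEt hff hwX hmain hlc
  intro t htinj htup col hcol bad hbad
  obtain ⟨ps, S, hps, hS, hbvS⟩ := hbvX X hX3
  have hpsZ : GoodP Z ps := by
    rcases hps with h | h
    · exact Or.inl h
    · exact Or.inr ⟨h.1, lt_of_le_of_lt (le_max_left _ _) h.2⟩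
  obtain ⟨a0, hcop, hcard, ha0z⟩ := hcov1 X hX2 ps S hpsZ hS t htup
  have htT : ∀ j, (t j : ℝ) ≤ c₂ * ff X := fun j => (htup j).2.2
  have htl : ∀ j, (t j : ℝ) ≤ (Real.log X) ^ 2 := fun j => (htT j).trans hff.1
  have hWpos : 0 < WW X S ps := WW_pos X S ps
  have hWr : (0 : ℝ) < (WW X S ps : ℝ) := by exact_mod_cast hWpos
  have hXpos : 0 < X := by linarith
  have hlX : 1 ≤ Real.log X := hmain.2.2
  have hffnn : 0 ≤ c₂ * ff X := mul_nonneg hc₂.le hff.2.1
  have htX : ∀ j, (t j : ℝ) ≤ X := by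
    intro j
    have := htT j
    have := hff.2.2
    linarith
  have hsge' : 8 * ((K0 + 1 : ℕ) : ℝ) * (m : ℝ) * gam ≤ s := by
    refine le_trans (le_of_eq ?_) hsge
    rw [hK0]
    push_cast
    ring
  -- the fibres
  have hfibp : ∀ d, 0 < fib col d := by
    intro d
    have h1 := hcol d
    by_contra h2
    have h3 : fib col d = 0 := by omega
    rw [h3] at h1
    omega
  have hfibA : ∀ d, A0 ≤ fib col d := by
    intro d
    have h1 : ((K0 + 1 : ℕ) : ℝ) ≤ 2 * m * (fib col d : ℝ) := by exact_mod_cast hcol d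
    have h2 : A0 * (2 * m) ≤ ((K0 + 1 : ℕ) : ℝ) := by
      rw [hK0]
      push_cast
      have h3 : A0 ≤ kap / (4 * gam * m) * 2 ^ m := by
        rw [hA0, hwdef]
        calc kap / (64 * gam ^ 2) * s / (m : ℝ) ^ 2 ≤ kap / (64 * gam ^ 2) * (16 * 2 ^ m * m * gam) / (m : ℝ) ^ 2 := by
              gcongr
          _ = _ := by field_simp; ring
      have hg1 := gam_ge
      calc A0 * (2 * m) ≤ kap / (4 * gam * m) * 2 ^ m * (2 * m) := by gcongr
        _ = (kap / (2 * gam)) * 2 ^ m := by field_simp; ring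
        _ ≤ 1 * 2 ^ m := by
            apply mul_le_mul_of_nonneg_right _ (by positivity)
            rw [div_le_one (by positivity)]
            have : kap ≤ 1 := by unfold kap; norm_num
            linarith
        _ = 2 ^ m := one_mul _
    have h3 : A0 * (2 * m) ≤ fib col d * (2 * m) := by linarith
    exact le_of_mul_le_mul_right h3 (by positivity)
  -- the survivors
  set U0 := (range (⌊c₂ * ff X⌋₊ + 1)).filter (fun s => (∀ j, s ≠ t j) ∧ (a0 + s).Coprime (WW X S ps)) with hU0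
  set U := insert 0 U0 with hU
  have hUcard : (U.card : ℝ) ≤ c₃ * Real.log X := by
    have h1 : (U.card : ℝ) ≤ U0.card + 1 := by
      rw [hU]
      exact_mod_cast Finset.card_insert_le 0 U0
    have h2 : 2 / c₃ * c₃ ≤ Real.log X * c₃ := mul_le_mul_of_nonneg_right hlc hc₃.le
    have h3 : 2 / c₃ * c₃ = 2 := by field_simp
    rw [h3] at h2
    have h4 : c₃ / 2 * Real.log X = Real.log X * c₃ / 2 := by ring
    rw [h4] at hcard
    linarith
  have hUk : ∀ k ∈ U, (k : ℝ) ≤ (Real.log X) ^ 2 := by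
    intro k hk
    rw [hU, Finset.mem_insert] at hk
    rcases hk with rfl | hk
    · push_cast; positivity
    · rw [hU0, Finset.mem_filter, Finset.mem_range] at hk
      have h1 : (k : ℝ) ≤ c₂ * ff X := (Nat.le_floor_iff hffnn).1 (by omega)
      exact h1.trans hff.1
  have hUt : ∀ j, t j ∉ U := by
    intro j hj
    rw [hU, Finset.mem_insert] at hj
    rcases hj with hj | hj
    · exact (htup j).1.ne_zero hj
    · rw [hU0, Finset.mem_filter] at hj
      exact hj.2.1 j rfl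
  have hUne : U.Nonempty := ⟨0, by rw [hU]; exact Finset.mem_insert_self _ _⟩
  obtain ⟨V, T, Z₁, M, M', M₂, e₁, e₂, e₃, hV, hTnn, hTU, hZ1, hM1, hMZ, hM', hM₂0, hM₂le, he, hcA, hcA2, hcB,
    ht1, ht2, ht3⟩ := hwX ps S hps hS hbvS t U htl hUk hUt hUne hUcard
  set E := Et X S ps t with hE
  have hEE : EE X S ps ⊆ E := EE_sub_Et X S ps t
  have hEsup : E ⊆ Esup X ps := hEtsub ps S t htl
  have hres := Et_res (X := X) (S := S) (ps := ps) htinj
  have hMM : MPhi X / 400 ≤ LPhi X := by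
    have := MPhi_le X (by linarith)
    linarith
  have hM0 : 0 ≤ M := by linarith
  have hM'0 : 0 ≤ M' := by linarith
  have hM₂s : ((K0 + 1 : ℕ) : ℝ) * M₂ ≤ etaQ gam * Z₁ := by
    have h1 : ((K0 + 1 : ℕ) : ℝ) * M₂ ≤ ((K0 + 1 : ℕ) : ℝ) * (Z₁ / (Real.log X) ^ (K0 + 5)) :=
      mul_le_mul_of_nonneg_left hM₂le hKpos.le
    refine h1.trans ?_
    have hlp : 0 < (Real.log X) ^ (K0 + 5) := by positivity
    rw [mul_div_assoc', div_le_iff₀ hlp]
    have h2 := hmain.2.1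
    rw [div_le_iff₀ hη] at h2
    have h3 := mul_le_mul_of_nonneg_right h2 (show (0 : ℝ) ≤ Z₁ by linarith)
    linarith
  have htotnn : ∀ e : ℕ → ℝ, (∀ q, 0 ≤ e q) → 0 ≤ tot (K0 + 1) X (WW X S ps) ps e := by
    intro e he'
    unfold tot
    exact Finset.sum_nonneg fun q _ => mul_nonneg (by positivity) (he' q)
  have herr1 := herr _ hWr (WW_le X (by linarith) S ps)
  have hmA : 0 < m * A0 + 1 := by positivity
  have hpos := pos_atE K0 m m f c A s hf0 hA1 hf1 hIpos hIle hs0 hsge' rfl hm hJ ε1 X hε1pos hε1a hε1b hε1c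
    col hm hfibp w A0 hwdef hA0 ps a0 S t hX40 hL1 hMM
    E hEsup (hBEt (max Z 4) ps S t (le_max_right _ _) hps hS htl) V T Z₁ M M' M₂ _ _ _ hV hZ1 hM1 hMZ hM' hM₂0
    hM₂s (htotnn e₁ fun q => (he q).1) (htotnn e₂ fun q => (he q).2.1) (htotnn e₃ fun q => (he q).2.2)
    (hS1 (max Z 4) ps S a0 t hps hS E hEE hEsup hres V M e₁ hM0 (fun q => (he q).1) hcA)
    (fun i => hS2 (max Z 4) ps S a0 t hps hS E hEE hEsup hres htl hcop V M' (X ^ (1 / 100 : ℝ)) e₃ hM'0
      (by positivity) (fun a => by rw [abs_of_nonneg (hV a).1]; exact (hV a).2) (fun q => (he q).2.2) i (hcB i))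
    (fun i j hij => hPS i j hij (max Z 4) ps S a0 t hps hS E hEE hEsup hres htX V M e₁ (fun a => (hV a).1) hM0
      (fun q => (he q).1) hcA)
    (hS1 (max Z 4) ps S a0 t hps hS E hEE hEsup hres (fun a => V a * T a) M₂ e₂ hM₂0 (fun q => (he q).2.1) hcA2)
    (by
      rw [← hC, ← he0]
      exact tot_errQ K0 C _ e0 X (WW X S ps) Z₁ _ _ _ hCpos.le (sq_nonneg _) he0pos hXpos hWr hZ1 hlX hmain.1
        ht1 ht2 ht3)
    (by
      rw [← he0]
      have h1 := mul_le_mul_of_nonneg_left herr1 hmA.le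
      refine h1.trans (le_of_eq ?_)
      field_simp) bad hbad
  obtain ⟨n, hn, hnpos⟩ : ∃ n ∈ Icc 1 ⌊3 * X⌋₊, 0 < (nu X (WW X S ps) a0 n *
      sqw E X f A (fun j => (n : ℤ) + t j) ^ 2 * V n) *
      (QQn A0 col (fun i => thn X (n + t i)) - etaQ gam * m - ((K0 + 1 : ℕ) : ℝ) * T n -
      ((K0 + 1 : ℕ) : ℝ) * (if n ∈ bad then 1 else 0) -
      2 * etaQ gam / m * ∑ i, ∑ j ∈ univ.filter (fun j => i ≠ j), thn X (n + t i) * thn X (n + t j)) := by
    by_contra hcon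
    push Not at hcon
    exact absurd hpos (not_lt.2 (Finset.sum_nonpos hcon))
  have hWnn : 0 ≤ nu X (WW X S ps) a0 n * sqw E X f A (fun j => (n : ℤ) + t j) ^ 2 * V n :=
    mul_nonneg (mul_nonneg (nu_nonneg _ _ _ _) (sq_nonneg _)) (hV n).1
  have hWpos' : 0 < nu X (WW X S ps) a0 n * sqw E X f A (fun j => (n : ℤ) + t j) ^ 2 * V n := by
    rcases hWnn.eq_or_lt with h | h
    · rw [← h, zero_mul] at hnpos; exact absurd hnpos (lt_irrefl _)
    · exact h
  have hBrpos := (mul_pos_iff_of_pos_left hWpos').1 hnpos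
  have hnu : nu X (WW X S ps) a0 n ≠ 0 := by
    intro h
    rw [h, zero_mul, zero_mul] at hWpos'
    exact lt_irrefl _ hWpos'
  have hXn : X < n := by
    by_contra hle
    push Not at hle
    apply hnu
    unfold nu
    rw [Phi_eq_zero_of_le (by positivity) (by rw [div_le_one hXpos]; exact hle), ite_self]
  have hcl : n ≡ a0 [MOD WW X S ps] := by
    by_contra h
    apply hnu
    unfold nu
    rw [if_neg h]
  have hn3 : (n : ℝ) ≤ 3 * X := by
    rw [Finset.mem_Icc] at hn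
    exact (Nat.cast_le.2 hn.2).trans (Nat.floor_le (by linarith))
  have hyX : (yy X : ℝ) < X := by
    have h1 : (yy X : ℝ) ≤ Real.log X / 1000 := Nat.floor_le (by positivity)
    have h2 := Real.log_le_sub_one_of_pos hXpos
    linarith
  have hTn := hTnn n
  have hKT : 0 ≤ ((K0 + 1 : ℕ) : ℝ) * T n := by positivity
  have hKb : (0 : ℝ) ≤ ((K0 + 1 : ℕ) : ℝ) * (if n ∈ bad then 1 else 0) := by
    split_ifs
    · rw [mul_one]; exact hKpos.le
    · rw [mul_zero]
  have hem : 0 < etaQ gam * m := by positivity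
  have h0 : ∀ i, 0 ≤ thn X (n + t i) := fun i => thn_nonneg X (by linarith) _
  have h4X : ∀ i, ((n + t i : ℕ) : ℝ) ≤ 4 * X := by
    intro i
    push_cast
    have := htX i
    linarith
  have hPP : 0 ≤ 2 * etaQ gam / m * ∑ i, ∑ j ∈ univ.filter (fun j => i ≠ j), thn X (n + t i) * thn X (n + t j) :=
    mul_nonneg (by positivity) (Finset.sum_nonneg fun i _ => Finset.sum_nonneg fun j _ => mul_nonneg (h0 i) (h0 j))
  have hQsum := QQn_le_sum A0 hA0pos.le col hfibA (fun i => thn X (n + t i)) h0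
  have hfin := finishRG K0 0 (c₂ * ff X) X ps a0 S t htT hX40 (by linarith [hff.2.2]) hyX U (by
    intro s hs hst hsc
    rw [hU, Finset.mem_insert]
    right
    rw [hU0, Finset.mem_filter, Finset.mem_range, Nat.lt_succ_iff]
    exact ⟨Nat.le_floor hs, hst, hsc⟩) T hTnn hTU bad n hXn hn3 hcl (by
    have h1 : (∑ i, th (n + t i)) / Real.log (4 * X) = ∑ i, thn X (n + t i) := by
      rw [Finset.sum_div]
      rfl
    rw [h1]
    push_cast at hBrpos ⊢
    linarith)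
  have hQle := QQn_le A0 hA0pos.le col hfibA (fun i => thn X (n + t i)) h0
      (fun i => thn_le_one X (by linarith) _ (h4X i)) (fun d => ∃ j, col j = d ∧ (n + t j).Prime) (by
        intro i hi
        refine ⟨i, rfl, ?_⟩
        by_contra hnp
        exact hi (thn_eq_zero X _ hnp))
  have hQm : QQn A0 col (fun i => thn X (n + t i)) ≤ m := by
    refine hQle.trans ?_
    have h1 := Finset.card_le_univ (univ.filter (fun d => ∃ j, col j = d ∧ (n + t j).Prime))
    rw [Fintype.card_fin] at h1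
    exact_mod_cast h1
  refine ⟨n, hXn, hn3, hfin.1, ⟨univ.filter (fun d => ∃ j, col j = d ∧ (n + t j).Prime), ?_, ?_⟩, ?_,
    hfin.2.2, ?_⟩
  · have h1 := QQn_le A0 hA0pos.le col hfibA (fun i => thn X (n + t i)) h0
      (fun i => thn_le_one X (by linarith) _ (h4X i)) (fun d => ∃ j, col j = d ∧ (n + t j).Prime) (by
        intro i hi
        refine ⟨i, rfl, ?_⟩
        by_contra hnp
        exact hi (thn_eq_zero X _ hnp))
    linarith
  · intro d hd
    exact (Finset.mem_filter.1 hd).2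
  · refine pairs_big m hm (etaQ gam) hη (fun i => thn X (n + t i)) h0 _ ?_ (by linarith)
    intro i hi
    have hp := (Finset.mem_filter.1 hi).2
    have h1 : thn X (n + t i) = Real.log ((n + t i : ℕ) : ℝ) / Real.log (4 * X) := by
      unfold thn th
      rw [if_pos hp]
    rw [h1, div_le_div_iff₀ (by norm_num) (Real.log_pos (by linarith))]
    have h2 : Real.log X ≤ Real.log ((n + t i : ℕ) : ℝ) := by
      apply Real.log_le_log hXpos
      push_cast
      have := Nat.cast_nonneg (α := ℝ) (t i)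
      linarith
    have h3 : Real.log (4 * X) ≤ Real.log X + Real.log X := by
      rw [Real.log_mul (by norm_num) hXpos.ne']
      have := Real.log_le_log (by norm_num : (0 : ℝ) < 4) (show (4 : ℝ) ≤ X by linarith)
      linarith
    linarith
  · intro p hpp hpz
    obtain ⟨h1, h2⟩ := ha0z p hpp hpz
    exact (Nat.modEq_zero_iff_dvd).1 ((hcl.of_dvd h2).trans ((Nat.modEq_zero_iff_dvd).2 h1))

theorem stE : StE :=
  ste_of Pool.Agent.H378R2.sieveAsymp_holds Pool.Agent.H378R2.bvrel_holds covR0 Pool.Agent.H312R2.RG.weights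

end Pool.Agent.T6.H2.Ent
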