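import Pool.Agent.T6.H2.EMain
import Pool.Agent.T6.H2.ECnt
import Pool.Agent.T6.H2.LFc

/-! # Strings of consecutive record gaps between primes in prescribed classes (helper2) -/

set_option autoImplicit false

open Finset Filter

namespace Pool.Agent.T6.H2.Ent

open Pool.Agent.H256R2.SC (ff)
open Pool.Agent.H312R2.RG.C3 (ff_tendsto ff_lower ff_small ff_upper)
open Pool.Agent.H362R2.RQ
open Pool.Agent.H378R2 (yy)
open Pool.Agent.T6.H2.LF (nth_mono nth_mono_real)

/-- `k` consecutive primes `p_n, …, p_{n+k-1}` in `[n₀, n₀ + C H]` in the classes `w i`, with gaps at least `H` -/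
def Str (k q : ℕ) (w : Fin k → (ZMod q)ˣ) (C H : ℝ) (n₀ n : ℕ) : Prop :=
  n₀ ≤ Nat.nth Nat.Prime n ∧ (Nat.nth Nat.Prime (n + k - 1) : ℝ) ≤ n₀ + C * H ∧
  (∀ i : Fin k, ((Nat.nth Nat.Prime (n + i) : ℕ) : ZMod q) = (w i : ZMod q)) ∧
  ∀ i, i + 1 < k → H ≤ (Nat.nth Nat.Prime (n + i + 1) : ℝ) - Nat.nth Nat.Prime (n + i) ∧
    (Nat.nth Nat.Prime (n + i + 1) : ℝ) - Nat.nth Nat.Prime (n + i) ≤ C * H

/-- the positions are ordered by the ranks -/
theorem rank_lt {K m : ℕ} (col : Fin K → Fin m) (i j : Fin K) (h : K * (col i : ℕ) + i < K * (col j : ℕ) + j) :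
    col i ≤ col j := by
  by_contra hcon
  push Not at hcon
  have h1 : (col j : ℕ) + 1 ≤ col i := hcon
  have h2 : K * ((col j : ℕ) + 1) ≤ K * col i := Nat.mul_le_mul_left K h1
  have h3 := j.2
  rw [Nat.mul_add, Nat.mul_one] at h2
  omega

theorem rank_inj {K m : ℕ} (col : Fin K → Fin m) (i j : Fin K)
    (h : K * (col i : ℕ) + i = K * (col j : ℕ) + j) : i = j := by
  have h1 : (K * (col i : ℕ) + i) % K = i := by
    rw [Nat.mul_add_mod]; exact Nat.mod_eq_of_lt i.2
  have h2 : (K * (col j : ℕ) + j) % K = j := by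
    rw [Nat.mul_add_mod]; exact Nat.mod_eq_of_lt j.2
  rw [h, h2] at h1
  exact Fin.ext h1.symm

theorem piece (h : StE) : ∃ η T : ℝ, 0 < η ∧ 0 < T ∧ ∀ k m : ℕ, 1 ≤ k → (k : ℝ) ≤ η * m →
    ∃ C c : ℝ, 1 ≤ C ∧ 0 < c ∧ ∀ q : ℕ, 1 ≤ q → ∃ X0 : ℝ, ∀ X : ℝ, X0 ≤ X →
    ∀ H : ℝ, Real.log X ≤ H → H ≤ c * ff X → ∀ A : Fin m → (ZMod q)ˣ,
    ∀ bad : Finset ℕ, (bad.card : ℝ) ≤ X ^ (9 / 10 : ℝ) →
    ∃ (n₀ n : ℕ) (g : Fin k → Fin m) (w : Fin k → (ZMod q)ˣ) (u : (ZMod q)ˣ),
      X < n₀ ∧ (n₀ : ℝ) ≤ 3 * X ∧ n₀ ∉ bad ∧ Monotone g ∧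
      η * k ≤ (T + η) * ((univ.image g).card : ℝ) ∧ (∀ i, (w i : ZMod q) + 1 = A (g i) + u) ∧
      Str k q w C H n₀ n := by
  classical
  obtain ⟨η, T, hη, hT, hmain⟩ := h
  refine ⟨η, T, hη, hT, ?_⟩
  intro k m hk hkm
  have hkr : (1 : ℝ) ≤ k := by exact_mod_cast hk
  have hm1 : 1 ≤ m := by
    by_contra hm
    have : m = 0 := by omega
    rw [this] at hkm
    simp at hkm
    omega
  have hm0 : 0 < m := hm1
  have hmr : (1 : ℝ) ≤ m := by exact_mod_cast hm1
  obtain ⟨K, hmK, c0, hc0, hst⟩ := hmain m hm1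
  have hK0 : 0 < K := by omega
  have : Nonempty (Fin m) := ⟨⟨0, hm0⟩⟩
  have : Nonempty (Fin K) := ⟨⟨0, hK0⟩⟩
  obtain ⟨C, hC⟩ : ∃ C : ℝ, C = 2 + 2 * (K * m) := ⟨_, rfl⟩
  have hKm : (0 : ℝ) ≤ K * m := by positivity
  have hC1 : 2 ≤ C := by rw [hC]; linarith
  refine ⟨C, c0 / C, by linarith, by positivity, ?_⟩
  intro q hq1
  have hq0 : 0 < q := hq1
  have : NeZero q := ⟨hq0.ne'⟩
  obtain ⟨X1, hX1⟩ := hst q
  have hev : ∀ᶠ y : ℝ in atTop, ∀ u : (ZMod q)ˣ, ∃ p : ℕ, p.Prime ∧ p ≡ (u : ZMod q).val [MOD q] ∧ y < p ∧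
      (p : ℝ) ≤ (1 + 1 / C) * y := by
    rw [eventually_all]
    intro u
    exact exists_prime_mod q hq0 _ (ZMod.val_coe_unit_coprime u) (1 / C) (by positivity)
  obtain ⟨Y0, hY0⟩ := Filter.eventually_atTop.1 hev
  obtain ⟨X2, hX2⟩ := Filter.eventually_atTop.1 ((eventually_ge_atTop X1).and
    ((Real.tendsto_log_atTop.eventually_ge_atTop (|Y0| + 4)).and
      ((ff_tendsto.eventually_gt_atTop 0).and (eventually_ge_atTop (q : ℝ)))))
  refine ⟨X2, ?_⟩
  intro X hX H hlH hHc A bad hbad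
  obtain ⟨hXX1, hlX, hffpos, hqX⟩ := hX2 X hX
  have hH : |Y0| + 4 ≤ H := hlX.trans hlH
  have hY0nn := abs_nonneg Y0
  have hHpos : 0 < H := by linarith
  have hCH : C * H ≤ c0 * ff X := by
    have h1 := mul_le_mul_of_nonneg_left hHc (show (0 : ℝ) ≤ C by linarith)
    have h2 : C * (c0 / C * ff X) = c0 * ff X := by field_simp
    linarith
  set col := cmod K m hm0 with hcol
  set rk : Fin K → ℕ := fun j => K * (col j : ℕ) + j with hrk
  set y : Fin K → ℝ := fun j => H * (1 + 2 * (rk j : ℝ)) with hy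
  have hrkle : ∀ j, (rk j : ℝ) + 1 ≤ K * m := by
    intro j
    have h1 : rk j + 1 ≤ K * m := by
      have h2 : K * ((col j : ℕ) + 1) ≤ K * m := Nat.mul_le_mul_left K (col j).2
      have h3 := j.2
      simp only [hrk]
      rw [Nat.mul_add, Nat.mul_one] at h2
      omega
    exact_mod_cast h1
  have hylow : ∀ j, H ≤ y j := by
    intro j
    simp only [hy]
    have : (0 : ℝ) ≤ rk j := Nat.cast_nonneg _
    nlinarith
  have hyup : ∀ j, y j + H ≤ C * H := by
    intro j
    have h1 := hrkle j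
    have h2 := mul_le_mul_of_nonneg_left h1 hHpos.le
    simp only [hy]
    rw [hC]
    nlinarith
  have hex : ∀ j : Fin K, ∃ p : ℕ, p.Prime ∧ p ≡ (A (col j) : ZMod q).val [MOD q] ∧ y j < p ∧
      (p : ℝ) ≤ y j + H := by
    intro j
    have h1 := hylow j
    obtain ⟨p, hp, hpa, hp1, hp2⟩ := hY0 (y j) (by
      have := le_abs_self Y0
      linarith) (A (col j))
    refine ⟨p, hp, hpa, hp1, hp2.trans ?_⟩
    have h2 : 1 / C * y j ≤ 1 / C * (C * H) :=
      mul_le_mul_of_nonneg_left (by have := hyup j; linarith) (by positivity)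
    have h3 : 1 / C * (C * H) = H := by field_simp
    linarith
  choose t htp hta htl htu using hex
  have htlt : ∀ i j : Fin K, rk i < rk j → H < (t j : ℝ) - t i := by
    intro i j hij
    have h1 : (rk i : ℝ) + 1 ≤ rk j := by exact_mod_cast hij
    have h2 := mul_le_mul_of_nonneg_left h1 hHpos.le
    have h3 := htl j
    have h4 := htu i
    simp only [hy] at h3 h4
    nlinarith
  have htinj : Function.Injective t := by
    intro i j hij
    rcases lt_trichotomy (rk i) (rk j) with h1 | h1 | h1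
    · have := htlt i j h1
      rw [hij] at this
      linarith
    · exact rank_inj col i j h1
    · have := htlt j i h1
      rw [hij] at this
      linarith
  have htrk : ∀ i j : Fin K, t i < t j → rk i < rk j := by
    intro i j hij
    rcases lt_trichotomy (rk i) (rk j) with h1 | h1 | h1
    · exact h1
    · have := rank_inj col i j h1
      rw [this] at hij
      exact absurd hij (lt_irrefl _)
    · have h2 := htlt j i h1
      have h3 : (t i : ℝ) < t j := by exact_mod_cast hij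
      linarith
  have htF : ∀ j, (t j : ℝ) ≤ C * H := fun j => (htu j).trans (hyup j)
  have htyy : ∀ j, yy X < t j := by
    intro j
    have h0 : 0 ≤ Real.log X := by linarith
    have h1 : (yy X : ℝ) ≤ Real.log X / 1000 := Nat.floor_le (by positivity)
    have h4 := hylow j
    have h5 := htl j
    have h6 : (yy X : ℝ) < t j := by linarith
    exact_mod_cast h6
  obtain ⟨n₀, hn1, hn2, hn3, ⟨D, hD1, hD2⟩, hPT, hn4, hn5⟩ := hX1 X hXX1 t htinj
    (fun j => ⟨htp j, htyy j, (htF j).trans hCH⟩) col (fib_cmod K m hm0 hmK) bad hbad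
  have hqn : ∀ p : ℕ, p.Prime → p ∣ q → p ∣ n₀ := fun p hp hpq => hn5 p hp (Nat.le_of_dvd hq0 hpq)
  have hcop1 : (n₀ + 1).Coprime q := by
    by_contra hcon
    obtain ⟨p, hp, hp1, hp2⟩ := Nat.Prime.not_coprime_iff_dvd.1 hcon
    have h1 := hqn p hp hp2
    have h2 : p ∣ 1 := (Nat.dvd_add_right h1).1 hp1
    exact hp.one_lt.ne' (Nat.dvd_one.1 h2)
  have hinf : (Set.ofPred Nat.Prime).Infinite := Nat.infinite_setOfPred_prime
  set P : Finset (Fin K) := univ.filter (fun j => (n₀ + t j).Prime) with hP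
  set n₁ := Nat.count Nat.Prime n₀ with hn₁
  set U := ⌊C * H⌋₊ with hU
  have hCHnn : 0 ≤ C * H := by positivity
  obtain ⟨N, hN⟩ : ∃ N, N = Nat.count Nat.Prime (n₀ + U + 1) - n₁ := ⟨_, rfl⟩
  have hτ : ∀ i < N, ∃ j : Fin K, Nat.nth Nat.Prime (n₁ + i) = n₀ + t j := by
    intro i hi
    have h1 : n₀ ≤ Nat.nth Nat.Prime (n₁ + i) := (Nat.count_le_iff_le_nth hinf).1 (by omega)
    have h2 : Nat.nth Nat.Prime (n₁ + i) < n₀ + U + 1 := Nat.nth_lt_of_lt_count (by omega)
    obtain ⟨s, hs⟩ := Nat.exists_eq_add_of_le h1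
    have h3 : (s : ℝ) ≤ C * H := by
      have h4 : s ≤ U := by omega
      exact (Nat.cast_le.2 h4).trans (Nat.floor_le hCHnn)
    obtain ⟨j, hj⟩ := hn4 s (h3.trans hCH) (by rw [← hs]; exact Nat.prime_nth_prime _)
    exact ⟨j, by rw [hs, hj]⟩
  choose! τ hτ using hτ
  have hτP : ∀ i < N, τ i ∈ P := by
    intro i hi
    rw [hP, mem_filter]
    refine ⟨mem_univ _, ?_⟩
    rw [← hτ i hi]
    exact Nat.prime_nth_prime _
  have hτlt : ∀ i j, i < j → j < N → t (τ i) < t (τ j) := by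
    intro i j hij hj
    have h1 := Nat.nth_strictMono hinf (show n₁ + i < n₁ + j by omega)
    rw [hτ i (by omega), hτ j hj] at h1
    omega
  have hNT : (N : ℝ) ≤ T * m := by
    refine le_trans ?_ hPT
    have h1 : (range N).card ≤ P.card := by
      apply card_le_card_of_injOn τ
      · intro i hi
        rw [mem_coe, mem_range] at hi
        exact mem_coe.2 (hτP i hi)
      · intro i hi j hj hij
        rw [mem_coe, mem_range] at hi hj
        rcases lt_trichotomy i j with h1 | h1 | h1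
        · have := hτlt i j h1 hj
          rw [hij] at this
          exact absurd this (lt_irrefl _)
        · exact h1
        · have := hτlt j i h1 hi
          rw [hij] at this
          exact absurd this (lt_irrefl _)
    rw [card_range] at h1
    exact_mod_cast h1
  set c : ℕ → Fin m := fun i => col (τ i) with hc
  have hDc : D ⊆ (range N).image c := by
    intro d hd
    obtain ⟨j, hj, hp⟩ := hD2 d hd
    have e1 : Nat.nth Nat.Prime (Nat.count Nat.Prime (n₀ + t j)) = n₀ + t j := Nat.nth_count hp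
    have h1 : n₁ ≤ Nat.count Nat.Prime (n₀ + t j) := Nat.count_monotone _ (by omega)
    have h2 : t j ≤ U := Nat.le_floor (htF j)
    have h3 : Nat.count Nat.Prime (n₀ + t j) < Nat.count Nat.Prime (n₀ + U + 1) :=
      Nat.count_strict_mono hp (by omega)
    rw [mem_image]
    refine ⟨Nat.count Nat.Prime (n₀ + t j) - n₁, by rw [mem_range]; omega, ?_⟩
    have h4 := hτ (Nat.count Nat.Prime (n₀ + t j) - n₁) (by omega)
    rw [show n₁ + (Nat.count Nat.Prime (n₀ + t j) - n₁) = Nat.count Nat.Prime (n₀ + t j) by omega, e1] at h4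
    have h5 : t j = t (τ (Nat.count Nat.Prime (n₀ + t j) - n₁)) := by omega
    have h6 := htinj h5
    simp only [hc]
    rw [← h6]
    exact hj
  have hDcard : (D.card : ℝ) ≤ (((range N).image c).card : ℝ) := by exact_mod_cast card_le_card hDc
  have hkN : k ≤ N := by
    have h1 : ((range N).image c).card ≤ N := by
      have := card_image_le (s := range N) (f := c)
      rwa [card_range] at this
    have h2 : (((range N).image c).card : ℝ) ≤ N := by exact_mod_cast h1
    have h3 : (k : ℝ) ≤ N := by linarith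
    exact_mod_cast h3
  obtain ⟨i₀, hi₀, hwin⟩ := window_image N k hk hkN c
  have hnk : ∀ i < k, Nat.nth Nat.Prime (n₁ + i₀ + i) = n₀ + t (τ (i₀ + i)) := by
    intro i hi
    have := hτ (i₀ + i) (by omega)
    rwa [← Nat.add_assoc] at this
  have hnkr : ∀ i < k, (Nat.nth Nat.Prime (n₁ + i₀ + i) : ℝ) = n₀ + t (τ (i₀ + i)) := by
    intro i hi
    rw [hnk i hi]; push_cast; rfl
  have himg : (univ : Finset (Fin k)).image (fun i : Fin k => c (i₀ + i)) = (range k).image (fun i => c (i₀ + i)) := by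
    ext x
    simp only [mem_image, mem_univ, true_and, mem_range]
    constructor
    · rintro ⟨i, hi⟩; exact ⟨i, i.2, hi⟩
    · rintro ⟨i, hi, hx⟩; exact ⟨⟨i, hi⟩, hx⟩
  have hcopP : ∀ i < k, (Nat.nth Nat.Prime (n₁ + i₀ + i)).Coprime q := by
    intro i hi
    rw [(Nat.prime_nth_prime _).coprime_iff_not_dvd]
    intro hdvd
    have h1 := Nat.le_of_dvd hq0 hdvd
    have h2 : (Nat.nth Nat.Prime (n₁ + i₀ + i) : ℝ) ≤ q := by exact_mod_cast h1
    rw [hnkr i hi] at h2
    have h3 : (0 : ℝ) ≤ t (τ (i₀ + i)) := Nat.cast_nonneg _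
    linarith
  refine ⟨n₀, n₁ + i₀, fun i => c (i₀ + i), fun i => ZMod.unitOfCoprime _ (hcopP i i.2),
    ZMod.unitOfCoprime _ hcop1, hn1, hn2, hn3, ?_, ?_, ?_, ?_, ?_, ?_, ?_⟩
  · intro i j hij
    rcases hij.eq_or_lt with h1 | h1
    · rw [h1]
    · have h2 : (i : ℕ) < j := h1
      have h3 := hτlt (i₀ + i) (i₀ + j) (by omega) (by have := j.2; omega)
      exact rank_lt col _ _ (htrk _ _ h3)
  · rw [himg]
    set r := ((range k).image (fun i => c (i₀ + i))).card with hr
    have h1 : (((range N).image c).card : ℝ) ≤ ((N / k + 1 : ℕ) : ℝ) * r := by exact_mod_cast hwin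
    have h2 : ((N / k + 1 : ℕ) : ℝ) ≤ (N : ℝ) / k + 1 := by
      push_cast
      have := @Nat.cast_div_le ℝ _ _ _ N k
      linarith
    have h3 : η * m ≤ ((N : ℝ) / k + 1) * r :=
      (hD1.trans (hDcard.trans h1)).trans (mul_le_mul_of_nonneg_right h2 (Nat.cast_nonneg _))
    have hk0 : (0 : ℝ) < k := by linarith
    have h4 : ((N : ℝ) / k + 1) * k ≤ (T + η) * m := by
      have : ((N : ℝ) / k + 1) * k = N + k := by field_simp
      rw [this]
      linarith
    have h5 : η * m * k ≤ (T + η) * m * r := by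
      have h6 := mul_le_mul_of_nonneg_right h3 hk0.le
      have h7 := mul_le_mul_of_nonneg_right h4 (Nat.cast_nonneg (α := ℝ) r)
      calc η * m * k ≤ ((N : ℝ) / k + 1) * r * k := h6
        _ = ((N : ℝ) / k + 1) * k * r := by ring
        _ ≤ _ := h7
    have hm0r : (0 : ℝ) < m := by linarith
    have h6 : m * (η * k) ≤ m * ((T + η) * r) := by linarith
    exact le_of_mul_le_mul_left h6 hm0r
  · intro i
    rw [ZMod.coe_unitOfCoprime, ZMod.coe_unitOfCoprime, hnk i i.2]
    have h1 := hta (τ (i₀ + i))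
    have h3 := (ZMod.natCast_eq_natCast_iff _ _ _).2 h1
    rw [ZMod.natCast_zmod_val] at h3
    push_cast
    rw [h3]
    ring
  · exact (Nat.count_le_iff_le_nth hinf).1 (by omega)
  · have h1 := hnkr (k - 1) (by omega)
    rw [show n₁ + i₀ + (k - 1) = n₁ + i₀ + k - 1 by omega] at h1
    rw [h1]
    have := htF (τ (i₀ + (k - 1)))
    linarith
  · intro i
    rw [ZMod.coe_unitOfCoprime]
  · intro i hi
    have h1 := hnkr i (by omega)
    have h2 := hnkr (i + 1) hi
    rw [← Nat.add_assoc] at h2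
    rw [h1, h2]
    have h3 := hτlt (i₀ + i) (i₀ + (i + 1)) (by omega) (by omega)
    have h4 := htlt _ _ (htrk _ _ h3)
    have h5 := htF (τ (i₀ + (i + 1)))
    have h6 : (0 : ℝ) ≤ t (τ (i₀ + i)) := Nat.cast_nonneg _
    constructor <;> linarith

end Pool.Agent.T6.H2.Ent
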