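import Mathlib

/-! # Order lemmas for the primes of a window which are clustered at lacunary places (helper2) -/

set_option autoImplicit false

open Finset

namespace Pool.Agent.T6.H2.LF

/-- two of the rows of a large set in `Fin N × Fin r` have more than `k` elements -/
theorem two_rich (N r k : ℕ) (G : Finset (Fin N × Fin r)) (h : r + N * k < G.card) :
    ∃ i₁ i₂ : Fin N, i₁ < i₂ ∧
      k + 1 ≤ ((univ : Finset (Fin r)).filter (fun j => (i₁, j) ∈ G)).card ∧
      k + 1 ≤ ((univ : Finset (Fin r)).filter (fun j => (i₂, j) ∈ G)).card := by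
  classical
  by_contra hcon
  push Not at hcon
  set g : Fin N → ℕ := fun i => ((univ : Finset (Fin r)).filter (fun j => (i, j) ∈ G)).card with hg
  have hcard : G.card = ∑ i, g i := by
    have h1 : G.card = ∑ i : Fin N, (G.filter (fun x => x.1 = i)).card :=
      card_eq_sum_card_fiberwise (fun x _ => mem_coe.2 (mem_univ x.1))
    rw [h1]
    refine sum_congr rfl fun i _ => ?_
    simp only [hg]
    refine card_bij (fun x _ => x.2) ?_ ?_ ?_
    · intro x hx
      rw [mem_filter] at hx ⊢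
      refine ⟨mem_univ _, ?_⟩
      rw [← hx.2]
      exact hx.1
    · intro x hx y hy hxy
      rw [mem_filter] at hx hy
      exact Prod.ext (hx.2.trans hy.2.symm) hxy
    · intro j hj
      rw [mem_filter] at hj
      exact ⟨(i, j), by rw [mem_filter]; exact ⟨hj.2, rfl⟩, rfl⟩
  have hgr : ∀ i, g i ≤ r := by
    intro i
    simp only [hg]
    refine (card_filter_le _ _).trans ?_
    simp
  have hle : ∑ i, g i ≤ r + N * k := by
    by_cases hex : ∃ i₀, k + 1 ≤ g i₀
    · obtain ⟨i₀, hi₀⟩ := hex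
      have h2 : ∀ i ∈ univ.erase i₀, g i ≤ k := by
        intro i hi
        rw [mem_erase] at hi
        by_contra hlt
        push Not at hlt
        rcases lt_trichotomy i i₀ with h3 | h3 | h3
        · have h5 := hcon i i₀ h3 hlt
          have h6 : k + 1 ≤ g i₀ := hi₀
          exact absurd h5 (not_lt.2 h6)
        · exact hi.1 h3
        · have h5 := hcon i₀ i h3 hi₀
          have h6 : k + 1 ≤ g i := hlt
          exact absurd h5 (not_lt.2 h6)
      rw [← add_sum_erase univ g (mem_univ i₀)]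
      have h3 := sum_le_card_nsmul _ _ _ h2
      rw [card_erase_of_mem (mem_univ _), card_univ, Fintype.card_fin, smul_eq_mul] at h3
      have h4 : (N - 1) * k ≤ N * k := Nat.mul_le_mul_right k (Nat.sub_le N 1)
      exact Nat.add_le_add (hgr i₀) (h3.trans h4)
    · push Not at hex
      have h2 : ∀ i ∈ (univ : Finset (Fin N)), g i ≤ k := fun i _ => by
        have := hex i
        omega
      have h3 := sum_le_card_nsmul _ _ _ h2
      rw [card_univ, Fintype.card_fin, smul_eq_mul] at h3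
      exact h3.trans (Nat.le_add_left _ _)
  omega

/-- the index `n` of the last prime before the cluster `B` -/
theorem core_index (k : ℕ) (lo hi : ℕ → ℝ) (hlh : ∀ i, lo i ≤ hi i) (hsep : ∀ i, hi i < lo (i + 1))
    (hlo0 : 0 ≤ lo 0)
    (a b : ℝ) (hcl : ∀ q : ℕ, q.Prime → a ≤ q → (q : ℝ) ≤ b → ∃ i, lo i ≤ q ∧ (q : ℝ) ≤ hi i)
    (i₁ B : ℕ) (hiB : i₁ < B) (ha : a ≤ lo i₁) (hb : hi B ≤ b) (A₁ A₂ : Finset ℕ)
    (hA₁ : ∀ q ∈ A₁, q.Prime ∧ lo i₁ ≤ q ∧ (q : ℝ) ≤ hi i₁)
    (hA₂ : ∀ q ∈ A₂, q.Prime ∧ lo B ≤ q ∧ (q : ℝ) ≤ hi B)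
    (hc₁ : k + 1 ≤ A₁.card) (hc₂ : k + 1 ≤ A₂.card) :
    ∃ n : ℕ, k ≤ n ∧ lo i₁ ≤ Nat.nth Nat.Prime (n - k) ∧ (Nat.nth Nat.Prime n : ℝ) ≤ hi (B - 1) ∧
      lo B ≤ Nat.nth Nat.Prime (n + 1) ∧ (Nat.nth Nat.Prime (n + 1 + k) : ℝ) ≤ hi B := by
  have hinf : (Set.ofPred Nat.Prime).Infinite := Nat.infinite_setOfPred_prime
  have hmono1 : StrictMono lo := strictMono_nat_of_lt_succ fun i => (hlh i).trans_lt (hsep i)
  have hlonn : ∀ i, 0 ≤ lo i := fun i => hlo0.trans (hmono1.monotone (Nat.zero_le i))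
  have hmono2 : StrictMono hi := strictMono_nat_of_lt_succ fun i => (hsep i).trans_le (hlh (i + 1))
  set c := Nat.count Nat.Prime ⌈lo B⌉₊ with hc
  set c₁ := Nat.count Nat.Prime ⌈lo i₁⌉₊ with hc1
  -- at least `k + 1` primes between
  have h1 : c₁ + (k + 1) ≤ c := by
    have hsub : ((range ⌈lo i₁⌉₊).filter Nat.Prime) ∪ A₁ ⊆ (range ⌈lo B⌉₊).filter Nat.Prime := by
      intro q hq
      rw [mem_union] at hq
      rcases hq with hq | hq
      · rw [mem_filter, mem_range] at hq ⊢
        refine ⟨lt_of_lt_of_le hq.1 ?_, hq.2⟩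
        exact Nat.ceil_le_ceil (hmono1.monotone hiB.le)
      · obtain ⟨h2, h3, h4⟩ := hA₁ q hq
        rw [mem_filter, mem_range]
        refine ⟨?_, h2⟩
        rw [Nat.lt_ceil]
        have h5 : hi i₁ < lo B := (hsep i₁).trans_le (hmono1.monotone hiB)
        linarith
    have hdisj : Disjoint ((range ⌈lo i₁⌉₊).filter Nat.Prime) A₁ := by
      rw [disjoint_left]
      intro q hq hq'
      rw [mem_filter, mem_range, Nat.lt_ceil] at hq
      have := (hA₁ q hq').2.1
      linarith [hq.1]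
    have h2 := card_le_card hsub
    rw [card_union_of_disjoint hdisj] at h2
    rw [hc, hc1, Nat.count_eq_card_filter_range, Nat.count_eq_card_filter_range]
    exact le_trans (Nat.add_le_add_left hc₁ _) h2
  -- at least `k + 1` primes in the cluster `B`
  have h2 : c + (k + 1) ≤ Nat.count Nat.Prime (⌊hi B⌋₊ + 1) := by
    have hhB : 0 ≤ hi B := (hlonn B).trans (hlh B)
    have hsub : ((range ⌈lo B⌉₊).filter Nat.Prime) ∪ A₂ ⊆ (range (⌊hi B⌋₊ + 1)).filter Nat.Prime := by
      intro q hq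
      rw [mem_union] at hq
      rcases hq with hq | hq
      · rw [mem_filter, mem_range, Nat.lt_ceil] at hq
        rw [mem_filter, mem_range, Nat.lt_succ_iff, Nat.le_floor_iff hhB]
        exact ⟨hq.1.le.trans (hlh B), hq.2⟩
      · obtain ⟨h2, h3, h4⟩ := hA₂ q hq
        rw [mem_filter, mem_range, Nat.lt_succ_iff, Nat.le_floor_iff hhB]
        exact ⟨h4, h2⟩
    have hdisj : Disjoint ((range ⌈lo B⌉₊).filter Nat.Prime) A₂ := by
      rw [disjoint_left]
      intro q hq hq'
      rw [mem_filter, mem_range, Nat.lt_ceil] at hq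
      have := (hA₂ q hq').2.1
      linarith [hq.1]
    have h2 := card_le_card hsub
    rw [card_union_of_disjoint hdisj] at h2
    rw [hc, Nat.count_eq_card_filter_range, Nat.count_eq_card_filter_range]
    exact le_trans (Nat.add_le_add_left hc₂ _) h2
  refine ⟨c - 1, by omega, ?_, ?_, ?_, ?_⟩
  · -- the first one
    have h3 : ⌈lo i₁⌉₊ ≤ Nat.nth Nat.Prime (c - 1 - k) := by
      apply (Nat.count_le_iff_le_nth hinf).1
      rw [← hc1]
      omega
    exact (Nat.ceil_le.1 h3)
  · have h3 : Nat.nth Nat.Prime (c - 1) < ⌈lo B⌉₊ := Nat.nth_lt_of_lt_count (by rw [← hc]; omega)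
    rw [Nat.lt_ceil] at h3
    have h4 : ⌈lo i₁⌉₊ ≤ Nat.nth Nat.Prime (c - 1) := by
      apply (Nat.count_le_iff_le_nth hinf).1
      rw [← hc1]
      omega
    have h5 : lo i₁ ≤ (Nat.nth Nat.Prime (c - 1) : ℝ) := Nat.ceil_le.1 h4
    obtain ⟨i, hi1, hi2⟩ := hcl _ (Nat.prime_nth_prime (c - 1)) (ha.trans h5)
      (h3.le.trans ((hlh B).trans hb))
    have h6 : i < B := by
      by_contra hcon
      push Not at hcon
      have := hmono1.monotone hcon
      linarith
    exact hi2.trans (hmono2.monotone (by omega))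
  · have h3 : ⌈lo B⌉₊ ≤ Nat.nth Nat.Prime (c - 1 + 1) := by
      apply (Nat.count_le_iff_le_nth hinf).1
      rw [← hc]
      omega
    exact Nat.ceil_le.1 h3
  · have h3 : Nat.nth Nat.Prime (c - 1 + 1 + k) < ⌊hi B⌋₊ + 1 := Nat.nth_lt_of_lt_count (by omega)
    have hhB : 0 ≤ hi B := (hlonn B).trans (hlh B)
    rw [Nat.lt_succ_iff, Nat.le_floor_iff hhB] at h3
    exact h3

end Pool.Agent.T6.H2.LF
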