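import Pool.Agent.T6.H2.LFa
import Pool.Agent.H362R2.RQ.Fin
import Pool.Agent.H362R2.RQ.Place

/-! # A dominating gap inside a block of consecutive primes, at every scale up to the record (helper2) -/

set_option autoImplicit false

open Finset Filter

namespace Pool.Agent.T6.H2.LF

open Pool.Agent.H256R2.SC (ff)
open Pool.Agent.H312R2.RG.C3 (ff_tendsto ff_lower ff_small ff_upper)
open Pool.Agent.H362R2.RQ

/-- parameters: rows and columns -/
theorem params (η : ℝ) (hη : 0 < η) (k : ℕ) : ∃ N r : ℕ, 2 ≤ N ∧ 1 ≤ r ∧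
    ∀ g : ℕ, η * ((N * r : ℕ) : ℝ) ≤ g → r + N * k < g := by
  obtain ⟨N, hN⟩ := exists_nat_gt (max 2 (4 / η))
  obtain ⟨r, hr⟩ := exists_nat_gt (max 1 (4 * (k : ℝ) / η))
  have hN2 : (2 : ℝ) < N := (le_max_left _ _).trans_lt hN
  have hN4 : 4 / η < N := (le_max_right _ _).trans_lt hN
  have hr1 : (1 : ℝ) < r := (le_max_left _ _).trans_lt hr
  have hrk : 4 * (k : ℝ) / η < r := (le_max_right _ _).trans_lt hr
  rw [div_lt_iff₀ hη] at hN4 hrk
  refine ⟨N, r, ?_, ?_, ?_⟩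
  · have : (2 : ℕ) < N := by exact_mod_cast hN2
    omega
  · have : (1 : ℕ) < r := by exact_mod_cast hr1
    omega
  · intro g hg
    have h1 : (4 : ℝ) * r < N * η * r := mul_lt_mul_of_pos_right hN4 (by linarith)
    have h2 : (4 * (k : ℝ)) * N < r * η * N := mul_lt_mul_of_pos_right hrk (by linarith)
    push_cast at hg
    have h3 : ((r + N * k : ℕ) : ℝ) < g := by
      push_cast
      nlinarith
    exact_mod_cast h3

/-- the positions -/
noncomputable def uu (N r : ℕ) (L R : ℝ) (d : Fin (N * r)) : ℝ :=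
  L * R ^ ((finProdFinEquiv.symm d).1 : ℕ) + 3 * ((finProdFinEquiv.symm d).2 : ℕ)

theorem uu_bounds (N r : ℕ) (L R : ℝ) (hL : L = 3 * r) (d : Fin (N * r)) :
    L * R ^ ((finProdFinEquiv.symm d).1 : ℕ) ≤ uu N r L R d ∧
    uu N r L R d ≤ L * R ^ ((finProdFinEquiv.symm d).1 : ℕ) + L - 3 := by
  unfold uu
  have h1 : (((finProdFinEquiv.symm d).2 : ℕ) : ℝ) + 1 ≤ r := by
    exact_mod_cast (finProdFinEquiv.symm d).2.2
  have h2 : (0 : ℝ) ≤ ((finProdFinEquiv.symm d).2 : ℕ) := Nat.cast_nonneg _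
  constructor
  · linarith
  · rw [hL]; linarith

theorem uu_sep (N r : ℕ) (L R : ℝ) (hr : 1 ≤ r) (hL : L = 3 * r) (hR : 4 ≤ R) (d d' : Fin (N * r))
    (hne : d ≠ d') : 2 < |uu N r L R d - uu N r L R d'| := by
  wlog hle : (finProdFinEquiv.symm d').1 ≤ (finProdFinEquiv.symm d).1 with H
  · rw [abs_sub_comm]
    exact H N r L R hr hL hR d' d hne.symm (le_of_not_ge hle)
  have hr1 : (1 : ℝ) ≤ r := by exact_mod_cast hr
  rcases hle.lt_or_eq with hlt | heq
  · have h1 := (uu_bounds N r L R hL d).1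
    have h2 := (uu_bounds N r L R hL d').2
    have h3 : (((finProdFinEquiv.symm d').1 : ℕ)) + 1 ≤ ((finProdFinEquiv.symm d).1 : ℕ) := hlt
    have h4 : R ^ (((finProdFinEquiv.symm d').1 : ℕ) + 1) ≤ R ^ ((finProdFinEquiv.symm d).1 : ℕ) :=
      pow_le_pow_right₀ (by linarith) h3
    have h5 : (1 : ℝ) ≤ R ^ ((finProdFinEquiv.symm d').1 : ℕ) := one_le_pow₀ (by linarith)
    rw [pow_succ] at h4
    have hL3 : 3 ≤ L := by rw [hL]; linarith
    have h6 : 2 < uu N r L R d - uu N r L R d' := by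
      set y := R ^ ((finProdFinEquiv.symm d').1 : ℕ) with hy
      set z := R ^ ((finProdFinEquiv.symm d).1 : ℕ) with hz
      have h7 : L * (y * R) ≤ L * z := mul_le_mul_of_nonneg_left h4 (by linarith)
      have h8 : L * (y * 4) ≤ L * (y * R) :=
        mul_le_mul_of_nonneg_left (mul_le_mul_of_nonneg_left hR (by linarith)) (by linarith)
      have h9 : L * 1 ≤ L * y := mul_le_mul_of_nonneg_left h5 (by linarith)
      nlinarith
    exact h6.trans_le (le_abs_self _)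
  · have h1 : (finProdFinEquiv.symm d).2 ≠ (finProdFinEquiv.symm d').2 := by
      intro h
      apply hne
      have : finProdFinEquiv.symm d = finProdFinEquiv.symm d' := Prod.ext heq.symm h
      exact finProdFinEquiv.symm.injective this
    have e1 : uu N r L R d - uu N r L R d' =
        3 * ((((finProdFinEquiv.symm d).2 : ℕ) : ℝ) - ((finProdFinEquiv.symm d').2 : ℕ)) := by
      unfold uu
      rw [heq]; ring
    have h2 : (1 : ℝ) ≤ |(((finProdFinEquiv.symm d).2 : ℕ) : ℝ) - ((finProdFinEquiv.symm d').2 : ℕ)| := by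
      have h3 : ((finProdFinEquiv.symm d).2 : ℕ) ≠ ((finProdFinEquiv.symm d').2 : ℕ) :=
        fun h => h1 (Fin.ext h)
      have h4 : (1 : ℤ) ≤ |(((finProdFinEquiv.symm d).2 : ℕ) : ℤ) - ((finProdFinEquiv.symm d').2 : ℕ)| :=
        Int.one_le_abs (sub_ne_zero.2 (by exact_mod_cast h3))
      exact_mod_cast h4
    rw [e1, abs_mul, abs_of_pos (by norm_num : (0 : ℝ) < 3)]
    linarith

/-- the block: `p_n` is followed by a gap `≥ c F` which is `1/ε` times larger than the total of the `k` gaps before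
and the total of the `k` gaps after it -/
def Blk (k : ℕ) (ε c : ℝ) (q a : ℕ) (F : ℝ) (n₀ n : ℕ) : Prop :=
  k ≤ n ∧ n₀ ≤ Nat.nth Nat.Prime (n - k) ∧ (Nat.nth Nat.Prime (n + 1 + k) : ℝ) ≤ n₀ + F ∧
  c * F ≤ (Nat.nth Nat.Prime (n + 1) : ℝ) - Nat.nth Nat.Prime n ∧
  (Nat.nth Nat.Prime n : ℝ) - Nat.nth Nat.Prime (n - k) ≤
    ε * ((Nat.nth Nat.Prime (n + 1) : ℝ) - Nat.nth Nat.Prime n) ∧
  (Nat.nth Nat.Prime (n + 1 + k) : ℝ) - Nat.nth Nat.Prime (n + 1) ≤
    ε * ((Nat.nth Nat.Prime (n + 1) : ℝ) - Nat.nth Nat.Prime n) ∧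
  ∀ i, n - k ≤ i → i ≤ n + 1 + k → Nat.nth Nat.Prime i ≡ a [MOD q]

theorem dominant (h : StRQ) (k : ℕ) (ε : ℝ) (hε : 0 < ε) : ∃ c : ℝ, 0 < c ∧
    ∀ q a : ℕ, Squarefree q → a.Coprime q → ∃ X0 : ℝ, ∀ X : ℝ, X0 ≤ X →
    ∀ F : ℝ, Real.log X ≤ F → F ≤ c * ff X →
    ∀ bad : Finset ℕ, (bad.card : ℝ) ≤ X ^ (9 / 10 : ℝ) →
    ∃ n₀ n : ℕ, X < n₀ ∧ (n₀ : ℝ) ≤ 3 * X ∧ n₀ ∉ bad ∧ Blk k ε c q a F n₀ n := by
  classical
  obtain ⟨η, hη, hpl⟩ := place_of h
  obtain ⟨N, r, hN, hr, hNr⟩ := params η hη k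
  obtain ⟨c0, hc0, hmain⟩ := hpl (N * r) (Nat.mul_pos (by omega) hr)
  have hr1 : (1 : ℝ) ≤ r := by exact_mod_cast hr
  set L : ℝ := 3 * r with hL
  set R : ℝ := 4 + 2 / ε with hR
  have hRε : 2 / ε ≤ R - 4 := by rw [hR]; linarith
  have hε2 : 0 < 2 / ε := by positivity
  have hR4 : 4 ≤ R := by linarith
  have hL3 : 3 ≤ L := by rw [hL]; linarith
  set D : ℝ := L * R ^ N with hD
  have hRN : 1 ≤ R ^ N := one_le_pow₀ (by linarith)
  have hD1 : 1 ≤ D := by rw [hD]; nlinarith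
  have hLR : ∀ i : ℕ, i < N → L * R ^ i + L ≤ D := by
    intro i hi
    have h1 : R ^ (i + 1) ≤ R ^ N := pow_le_pow_right₀ (by linarith) hi
    have h2 : (1 : ℝ) ≤ R ^ i := one_le_pow₀ (by linarith)
    have h3 : R ^ i + 1 ≤ R ^ N := by
      refine le_trans ?_ h1
      rw [pow_succ]; nlinarith
    rw [hD]; nlinarith
  refine ⟨min c0 (1 / (8 * D)), by positivity, ?_⟩
  intro q a hqsf haq
  obtain ⟨X1, hX1⟩ := hmain (uu N r L R) D 1 hD1 le_rfl (by
    intro d
    have h1 := uu_bounds N r L R hL d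
    have h2 := hLR _ (finProdFinEquiv.symm d).1.2
    have h3 : (0 : ℝ) ≤ R ^ ((finProdFinEquiv.symm d).1 : ℕ) := pow_nonneg (by linarith) _
    rw [abs_le]
    constructor
    · nlinarith [h1.1]
    · linarith [h1.2]) (uu_sep N r L R hr hL hR4) q a hqsf haq
  refine ⟨max X1 (Real.exp 1), ?_⟩
  intro X hX F hlF hFc bad hbad
  have hX1' : X1 ≤ X := (le_max_left _ _).trans hX
  have hXe : Real.exp 1 ≤ X := (le_max_right _ _).trans hX
  have hXpos : 0 < X := (Real.exp_pos 1).trans_le hXe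
  have hlog : 1 ≤ Real.log X := by
    rw [Real.le_log_iff_exp_le hXpos]; exact hXe
  have hF0 : 0 < F := by linarith
  have hffpos : 0 < ff X := by
    by_contra hcon
    push Not at hcon
    have : min c0 (1 / (8 * D)) * ff X ≤ 0 := mul_nonpos_of_nonneg_of_nonpos (by positivity) hcon
    linarith
  obtain ⟨n₀, hn1, hn2, hn3, ⟨G, hG1, hG2⟩, hn4⟩ := hX1 X hX1' F hlF
    (hFc.trans (mul_le_mul_of_nonneg_right (min_le_left _ _) hffpos.le)) bad hbad
  rw [mul_one] at hG2 hn4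
  set w : ℝ := F / (8 * D) with hw
  have hw0 : 0 < w := by rw [hw]; positivity
  have hwD : w * D = F / 8 := by rw [hw]; field_simp
  -- clusters
  set lo : ℕ → ℝ := fun i => (n₀ : ℝ) + F / 2 + w * (L * R ^ i - 1) with hlo
  set hi : ℕ → ℝ := fun i => (n₀ : ℝ) + F / 2 + w * (L * R ^ i + L - 2) with hhi
  have hlh : ∀ i, lo i ≤ hi i := by
    intro i
    simp only [hlo, hhi]
    have : w * (L * R ^ i - 1) ≤ w * (L * R ^ i + L - 2) := mul_le_mul_of_nonneg_left (by linarith) hw0.le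
    linarith
  have hsep : ∀ i, hi i < lo (i + 1) := by
    intro i
    simp only [hlo, hhi]
    have h1 : (1 : ℝ) ≤ R ^ i := one_le_pow₀ (by linarith)
    have h2 : L * R ^ i + L - 2 < L * R ^ (i + 1) - 1 := by
      rw [pow_succ]
      have h3 : L * (R ^ i * 4) ≤ L * (R ^ i * R) :=
        mul_le_mul_of_nonneg_left (mul_le_mul_of_nonneg_left hR4 (by linarith)) (by linarith)
      nlinarith
    have : w * (L * R ^ i + L - 2) < w * (L * R ^ (i + 1) - 1) := mul_lt_mul_of_pos_left h2 hw0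
    linarith
  have hn0nn : (0 : ℝ) ≤ n₀ := Nat.cast_nonneg _
  have hlo0 : (n₀ : ℝ) ≤ lo 0 := by
    simp only [hlo]
    have : 0 ≤ w * (L * R ^ 0 - 1) := mul_nonneg hw0.le (by rw [pow_zero]; linarith)
    linarith
  have hhib : ∀ i, i < N → hi i ≤ n₀ + F := by
    intro i hi'
    simp only [hhi]
    have h1 := hLR i hi'
    have : w * (L * R ^ i + L - 2) ≤ w * D := mul_le_mul_of_nonneg_left (by linarith) hw0.le
    rw [hwD] at this
    linarith
  have hnear : ∀ s : ℕ, ∀ d : Fin (N * r), |((s : ℝ) - F / 2) / w - uu N r L R d| ≤ 1 →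
      lo (finProdFinEquiv.symm d).1 ≤ ((n₀ + s : ℕ) : ℝ) ∧ ((n₀ + s : ℕ) : ℝ) ≤ hi (finProdFinEquiv.symm d).1 := by
    intro s d hd
    have h1 := uu_bounds N r L R hL d
    rw [abs_le] at hd
    have e1 : ((s : ℝ) - F / 2) = w * (((s : ℝ) - F / 2) / w) := by field_simp
    set v := ((s : ℝ) - F / 2) / w with hv
    simp only [hlo, hhi]
    push_cast
    constructor
    · have : w * (L * R ^ ((finProdFinEquiv.symm d).1 : ℕ) - 1) ≤ w * v :=
        mul_le_mul_of_nonneg_left (by linarith [h1.1, hd.1]) hw0.le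
      linarith
    · have : w * v ≤ w * (L * R ^ ((finProdFinEquiv.symm d).1 : ℕ) + L - 2) :=
        mul_le_mul_of_nonneg_left (by linarith [h1.2, hd.2]) hw0.le
      linarith
  -- rich clusters
  obtain ⟨i₁, i₂, hi12, hr1', hr2'⟩ := two_rich N r k (G.map finProdFinEquiv.symm.toEmbedding) (by
    rw [card_map]
    exact hNr _ hG1)
  have hrich : ∀ i : Fin N,
      k + 1 ≤ ((univ : Finset (Fin r)).filter (fun j => (i, j) ∈ G.map finProdFinEquiv.symm.toEmbedding)).card →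
      ∃ A : Finset ℕ, (∀ p ∈ A, p.Prime ∧ lo i ≤ p ∧ (p : ℝ) ≤ hi i) ∧ k + 1 ≤ A.card := by
    intro i hicard
    have hmem : ∀ j : Fin r, (i, j) ∈ G.map finProdFinEquiv.symm.toEmbedding → finProdFinEquiv (i, j) ∈ G := by
      intro j hj
      rw [Finset.mem_map] at hj
      obtain ⟨d, hd, hde⟩ := hj
      have h0 : finProdFinEquiv (i, j) = d := by
        rw [← hde]
        exact finProdFinEquiv.apply_symm_apply d
      rw [h0]
      exact hd
    have hch : ∀ j : Fin r, ∃ s : ℕ, (i, j) ∈ G.map finProdFinEquiv.symm.toEmbedding →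
        (n₀ + s).Prime ∧ |((s : ℝ) - F / 2) / w - uu N r L R (finProdFinEquiv (i, j))| ≤ 1 := by
      intro j
      by_cases hj : (i, j) ∈ G.map finProdFinEquiv.symm.toEmbedding
      · obtain ⟨s, hs⟩ := hG2 _ (hmem j hj)
        exact ⟨s, fun _ => hs⟩
      · exact ⟨0, fun h => absurd h hj⟩
    choose s hs using hch
    refine ⟨((univ : Finset (Fin r)).filter (fun j => (i, j) ∈ G.map finProdFinEquiv.symm.toEmbedding)).image
      (fun j => n₀ + s j), ?_, ?_⟩
    · intro p hp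
      rw [mem_image] at hp
      obtain ⟨j, hj, rfl⟩ := hp
      rw [mem_filter] at hj
      have h1 := hs j hj.2
      have h2 := hnear (s j) _ h1.2
      simp only [Equiv.symm_apply_apply] at h2
      exact ⟨h1.1, h2⟩
    · rw [card_image_of_injOn]
      · exact hicard
      · intro j hj j' hj' hjj
        rw [mem_coe, mem_filter] at hj hj'
        by_contra hne
        have hss : s j = s j' := by
          have : n₀ + s j = n₀ + s j' := hjj
          omega
        have h1 := (hs j hj.2).2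
        have h2 := (hs j' hj'.2).2
        rw [← hss] at h2
        have h3 := uu_sep N r L R hr hL hR4 (finProdFinEquiv (i, j)) (finProdFinEquiv (i, j')) (by
          intro h
          have := finProdFinEquiv.injective h
          exact hne (congrArg Prod.snd this))
        have h4 : |uu N r L R (finProdFinEquiv (i, j)) - uu N r L R (finProdFinEquiv (i, j'))| ≤ 2 := by
          have h5 := abs_sub_le (uu N r L R (finProdFinEquiv (i, j))) (((s j : ℝ) - F / 2) / w)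
            (uu N r L R (finProdFinEquiv (i, j')))
          rw [abs_sub_comm] at h1
          linarith
        linarith
  obtain ⟨A₁, hA₁, hc₁⟩ := hrich i₁ hr1'
  obtain ⟨A₂, hA₂, hc₂⟩ := hrich i₂ hr2'
  have hcl : ∀ p : ℕ, p.Prime → (n₀ : ℝ) ≤ p → (p : ℝ) ≤ n₀ + F → ∃ i, lo i ≤ p ∧ (p : ℝ) ≤ hi i := by
    intro p hp h1 h2
    have h1' : n₀ ≤ p := by exact_mod_cast h1
    obtain ⟨s, rfl⟩ := Nat.exists_eq_add_of_le h1'
    push_cast at h2
    obtain ⟨-, d, hd⟩ := hn4 s (by linarith) hp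
    exact ⟨_, hnear s d hd⟩
  have hlt : (i₁ : ℕ) < (i₂ : ℕ) := hi12
  have hlomono : ∀ i, lo 0 ≤ lo i := by
    intro i
    simp only [hlo]
    have h1 : (1 : ℝ) ≤ R ^ i := one_le_pow₀ (by linarith)
    have : w * (L * R ^ 0 - 1) ≤ w * (L * R ^ i - 1) :=
      mul_le_mul_of_nonneg_left (by rw [pow_zero]; nlinarith) hw0.le
    linarith
  obtain ⟨n, hkn, hb1, hb2, hb3, hb4⟩ := core_index k lo hi hlh hsep (hn0nn.trans hlo0) n₀ (n₀ + F) hcl
    i₁ i₂ hlt (hlo0.trans (hlomono _)) (hhib _ i₂.2) A₁ A₂ hA₁ hA₂ hc₁ hc₂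
  obtain ⟨B, hB⟩ : ∃ B : ℕ, (i₂ : ℕ) = B + 1 := ⟨i₂ - 1, by omega⟩
  rw [hB] at hb2 hb3 hb4
  simp only [Nat.add_sub_cancel] at hb2
  have hb0 : lo 0 ≤ Nat.nth Nat.Prime (n - k) := (hlomono _).trans hb1
  -- sizes
  have hRB : (1 : ℝ) ≤ R ^ B := one_le_pow₀ (by linarith)
  set y := R ^ B with hy
  have hLy : L ≤ L * y := le_mul_of_one_le_right (by linarith) hRB
  have hgap : w * (L * (y * (R - 2))) ≤ (Nat.nth Nat.Prime (n + 1) : ℝ) - Nat.nth Nat.Prime n := by
    have h1 : lo (B + 1) - hi B ≤ (Nat.nth Nat.Prime (n + 1) : ℝ) - Nat.nth Nat.Prime n := by linarith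
    refine le_trans ?_ h1
    simp only [hlo, hhi]
    rw [pow_succ, ← hy]
    have e1 : (n₀ : ℝ) + F / 2 + w * (L * (y * R) - 1) - ((n₀ : ℝ) + F / 2 + w * (L * y + L - 2)) =
        w * (L * (y * R) - L * y - L + 1) := by ring
    rw [e1]
    apply mul_le_mul_of_nonneg_left _ hw0.le
    have e2 : L * (y * (R - 2)) = L * (y * R) - 2 * (L * y) := by ring
    linarith
  have hleft : (Nat.nth Nat.Prime n : ℝ) - Nat.nth Nat.Prime (n - k) ≤ w * (L * (y * 2)) := by
    have h1 : (Nat.nth Nat.Prime n : ℝ) - Nat.nth Nat.Prime (n - k) ≤ hi B - lo 0 := by linarith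
    refine h1.trans ?_
    simp only [hlo, hhi]
    rw [pow_zero, ← hy]
    have e1 : (n₀ : ℝ) + F / 2 + w * (L * y + L - 2) - ((n₀ : ℝ) + F / 2 + w * (L * 1 - 1)) =
        w * (L * y - 1) := by ring
    rw [e1]
    apply mul_le_mul_of_nonneg_left _ hw0.le
    have e2 : L * (y * 2) = 2 * (L * y) := by ring
    linarith
  have hright : (Nat.nth Nat.Prime (n + 1 + k) : ℝ) - Nat.nth Nat.Prime (n + 1) ≤ w * (L * (y * 2)) := by
    have h1 : (Nat.nth Nat.Prime (n + 1 + k) : ℝ) - Nat.nth Nat.Prime (n + 1) ≤ hi (B + 1) - lo (B + 1) := by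
      linarith
    refine h1.trans ?_
    simp only [hlo, hhi]
    have e1 : (n₀ : ℝ) + F / 2 + w * (L * R ^ (B + 1) + L - 2) - ((n₀ : ℝ) + F / 2 + w * (L * R ^ (B + 1) - 1)) =
        w * (L - 1) := by ring
    rw [e1]
    apply mul_le_mul_of_nonneg_left _ hw0.le
    have e2 : L * (y * 2) = 2 * (L * y) := by ring
    linarith
  have hratio : w * (L * (y * 2)) ≤ ε * (w * (L * (y * (R - 2)))) := by
    have h1 : 2 ≤ ε * (R - 2) := by
      have h2 : ε * (2 / ε) ≤ ε * (R - 2) := mul_le_mul_of_nonneg_left (by linarith) hε.le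
      have h3 : ε * (2 / ε) = 2 := by field_simp
      linarith
    have h2 : 0 ≤ w * (L * y) := by positivity
    have e2 : w * (L * (y * 2)) = w * (L * y) * 2 := by ring
    have e3 : ε * (w * (L * (y * (R - 2)))) = w * (L * y) * (ε * (R - 2)) := by ring
    rw [e2, e3]
    exact mul_le_mul_of_nonneg_left h1 h2
  have hεgap : ε * (w * (L * (y * (R - 2)))) ≤ ε * ((Nat.nth Nat.Prime (n + 1) : ℝ) - Nat.nth Nat.Prime n) :=
    mul_le_mul_of_nonneg_left hgap hε.le
  refine ⟨n₀, n, hn1, hn2, hn3, hkn, ?_, ?_, ?_, by linarith, by linarith, ?_⟩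
  · have : (n₀ : ℝ) ≤ Nat.nth Nat.Prime (n - k) := hlo0.trans hb0
    exact_mod_cast this
  · have := hhib i₂ i₂.2
    rw [hB] at this
    linarith
  · refine le_trans ?_ hgap
    have h1 : min c0 (1 / (8 * D)) * F ≤ 1 / (8 * D) * F :=
      mul_le_mul_of_nonneg_right (min_le_right _ _) hF0.le
    have h2 : 1 / (8 * D) * F = w := by rw [hw]; ring
    have h3 : w * 1 ≤ w * (L * (y * (R - 2))) := by
      apply mul_le_mul_of_nonneg_left _ hw0.le
      have h4 : 1 * 1 ≤ y * (R - 2) := mul_le_mul hRB (by linarith) (by norm_num) (by linarith)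
      have h5 : 1 * 1 ≤ L * (y * (R - 2)) := mul_le_mul (by linarith) (by linarith) (by norm_num) (by linarith)
      linarith
    linarith
  · intro i h1 h2
    have hmono := Nat.nth_monotone Nat.infinite_setOfPred_prime
    have h3 : (Nat.nth Nat.Prime (n - k) : ℝ) ≤ Nat.nth Nat.Prime i := by exact_mod_cast hmono h1
    have h4 : (Nat.nth Nat.Prime i : ℝ) ≤ Nat.nth Nat.Prime (n + 1 + k) := by exact_mod_cast hmono h2
    have h5 : (n₀ : ℝ) ≤ Nat.nth Nat.Prime i := hlo0.trans (hb0.trans h3)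
    have h5' : n₀ ≤ Nat.nth Nat.Prime i := by exact_mod_cast h5
    obtain ⟨s, hs⟩ := Nat.exists_eq_add_of_le h5'
    have h6 : (s : ℝ) ≤ F := by
      have h7 : ((Nat.nth Nat.Prime i : ℕ) : ℝ) = n₀ + s := by rw [hs]; push_cast; ring
      have h8 := hhib i₂ i₂.2
      rw [hB] at h8
      linarith
    have h7 := (hn4 s h6 (by rw [← hs]; exact Nat.prime_nth_prime i)).1
    rwa [← hs] at h7

end Pool.Agent.T6.H2.LF
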