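import Pool.Agent.T6.H2.LFc

/-! # Groups of exactly `m` primes which are isolated relative to their diameter (helper2) -/

set_option autoImplicit false

open Finset Filter

namespace Pool.Agent.T6.H2.LF

open Pool.Agent.H256R2.SC (ff)
open Pool.Agent.H312R2.RG.C3 (ff_tendsto ff_lower ff_small ff_upper)
open Pool.Agent.H362R2.RQ
open Pool.Agent.H378R2 (yy)

/-- the group of the `m` primes `p_n, …, p_{n+m-1}` -/
def Grp (m : ℕ) (ε c : ℝ) (q a : ℕ) (F : ℝ) (n₀ n : ℕ) : Prop :=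
  n₀ ≤ Nat.nth Nat.Prime n ∧ (Nat.nth Nat.Prime (n + m) : ℝ) ≤ n₀ + F ∧
  (∀ i ≤ m, Nat.nth Nat.Prime (n + i) ≡ a [MOD q]) ∧
  c * F ≤ (Nat.nth Nat.Prime n : ℝ) - Nat.nth Nat.Prime (n - 1) ∧
  c * F ≤ (Nat.nth Nat.Prime (n + m) : ℝ) - Nat.nth Nat.Prime (n + m - 1) ∧
  (2 ≤ m → c * F ≤ (Nat.nth Nat.Prime (n + m - 1) : ℝ) - Nat.nth Nat.Prime n) ∧
  (Nat.nth Nat.Prime (n + m - 1) : ℝ) - Nat.nth Nat.Prime n ≤
    ε * ((Nat.nth Nat.Prime n : ℝ) - Nat.nth Nat.Prime (n - 1)) ∧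
  (Nat.nth Nat.Prime (n + m - 1) : ℝ) - Nat.nth Nat.Prime n ≤
    ε * ((Nat.nth Nat.Prime (n + m) : ℝ) - Nat.nth Nat.Prime (n + m - 1))

theorem group (h : StRQ) (m : ℕ) (hm : 1 ≤ m) (ε : ℝ) (hε : 0 < ε) : ∃ c : ℝ, 0 < c ∧
    ∀ q a : ℕ, Squarefree q → a.Coprime q → ∃ X0 : ℝ, ∀ X : ℝ, X0 ≤ X →
    ∀ F : ℝ, Real.log X ≤ F → F ≤ c * ff X →
    ∀ bad : Finset ℕ, (bad.card : ℝ) ≤ X ^ (9 / 10 : ℝ) →
    ∃ n₀ n : ℕ, X < n₀ ∧ (n₀ : ℝ) ≤ 3 * X ∧ n₀ ∉ bad ∧ Grp m ε c q a F n₀ n := by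
  classical
  obtain ⟨η, hη, hmain⟩ := h
  obtain ⟨M, hM⟩ := exists_nat_gt (max 1 (((m : ℝ) + 1) / η))
  have hM1 : (1 : ℝ) < M := (le_max_left _ _).trans_lt hM
  have hMη : ((m : ℝ) + 1) / η < M := (le_max_right _ _).trans_lt hM
  rw [div_lt_iff₀ hη] at hMη
  have hM1' : 1 ≤ M := by
    have : (1 : ℕ) < M := by exact_mod_cast hM1
    omega
  obtain ⟨K, hMK, c0, hc0, hst⟩ := hmain M hM1'
  have hM0 : 0 < M := hM1'
  have hK0 : 0 < K := by omega
  haveI : Nonempty (Fin K) := ⟨⟨0, hK0⟩⟩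
  set R : ℝ := 4 + 1 / ε with hR
  have hε2 : 0 < 1 / ε := by positivity
  have hRε : 1 / ε ≤ R - 4 := by rw [hR]; linarith
  have hR4 : 4 ≤ R := by linarith
  have hRp : ∀ i : ℕ, (1 : ℝ) ≤ R ^ i := fun i => one_le_pow₀ (by linarith)
  set κ : ℝ := min ε 1 / (8 * R ^ K) with hκ
  have hRK : 0 < R ^ K := by have := hRp K; linarith
  have hκ0 : 0 < κ := by rw [hκ]; positivity
  have hκR : κ * R ^ K ≤ min ε 1 / 8 := by rw [hκ]; field_simp; exact le_refl _
  have hκ1 : κ ≤ 1 / 8 := by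
    have h1 : κ * 1 ≤ κ * R ^ K := mul_le_mul_of_nonneg_left (hRp K) hκ0.le
    have h2 : min ε 1 ≤ 1 := min_le_right _ _
    linarith
  refine ⟨min c0 κ, by positivity, ?_⟩
  intro q a hqsf haq
  have hq0 : 0 < q := Nat.pos_of_ne_zero hqsf.ne_zero
  obtain ⟨X1, hX1⟩ := hst q
  obtain ⟨Y0, hY0⟩ := Filter.eventually_atTop.1 (exists_prime_mod q hq0 a haq κ hκ0)
  obtain ⟨X2, hX2⟩ := Filter.eventually_atTop.1 ((eventually_ge_atTop X1).and
    ((Real.tendsto_log_atTop.eventually_ge_atTop (4 * |Y0| + 4)).and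
      (ff_tendsto.eventually_gt_atTop 0)))
  refine ⟨X2, ?_⟩
  intro X hX F hlF hFc bad hbad
  obtain ⟨hXX1, hlX, hffpos⟩ := hX2 X hX
  have hF : 4 * |Y0| + 4 ≤ F := hlX.trans hlF
  have hY0nn := abs_nonneg Y0
  have hFpos : 0 < F := by linarith
  have hFc0 : F ≤ c0 * ff X := hFc.trans (mul_le_mul_of_nonneg_right (min_le_left _ _) hffpos.le)
  set w : ℝ := κ * F with hw
  have hw0 : 0 < w := by rw [hw]; positivity
  have hwR : ∀ i : ℕ, i ≤ K → w * R ^ i ≤ min ε 1 / 8 * F := by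
    intro i hi
    have h1 : R ^ i ≤ R ^ K := pow_le_pow_right₀ (by linarith) hi
    have h2 : w * R ^ i ≤ w * R ^ K := mul_le_mul_of_nonneg_left h1 hw0.le
    have h3 : w * R ^ K = κ * R ^ K * F := by rw [hw]; ring
    rw [h3] at h2
    exact h2.trans (mul_le_mul_of_nonneg_right hκR hFpos.le)
  have hmin1 : min ε 1 ≤ 1 := min_le_right _ _
  have hminε : min ε 1 ≤ ε := min_le_left _ _
  have hmin0 : 0 < min ε 1 := by positivity
  have hwR8 : ∀ i : ℕ, i ≤ K → w * R ^ i ≤ F / 8 := by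
    intro i hi
    have := hwR i hi
    nlinarith
  -- the places
  have hex : ∀ j : Fin K, ∃ p : ℕ, p.Prime ∧ p ≡ a [MOD q] ∧ F / 2 + w * R ^ (j : ℕ) < p ∧
      (p : ℝ) ≤ F / 2 + w * R ^ (j : ℕ) + w := by
    intro j
    have h0 := hwR8 j j.2.le
    have h0' : 0 < w * R ^ (j : ℕ) := by
      have := hRp (j : ℕ)
      positivity
    obtain ⟨p, hp, hpa, hp1, hp2⟩ := hY0 (F / 2 + w * R ^ (j : ℕ)) (by
      have := le_abs_self Y0
      linarith)
    refine ⟨p, hp, hpa, hp1, hp2.trans ?_⟩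
    have h2 : κ * (F / 2 + w * R ^ (j : ℕ)) ≤ κ * F := mul_le_mul_of_nonneg_left (by linarith) hκ0.le
    have h3 : (1 + κ) * (F / 2 + w * R ^ (j : ℕ)) = F / 2 + w * R ^ (j : ℕ) + κ * (F / 2 + w * R ^ (j : ℕ)) := by
      ring
    rw [h3]
    linarith
  choose t htp hta htl htu using hex
  -- lacunarity
  have hlac : ∀ i j : Fin K, i < j → (w * R ^ (i : ℕ)) * (R - 2) ≤ (t j : ℝ) - t i := by
    intro i j hij
    have h1 : R ^ ((i : ℕ) + 1) ≤ R ^ (j : ℕ) := pow_le_pow_right₀ (by linarith) hij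
    have h2 : w * R ^ ((i : ℕ) + 1) ≤ w * R ^ (j : ℕ) := mul_le_mul_of_nonneg_left h1 hw0.le
    rw [pow_succ] at h2
    have h3 := htl j
    have h4 := htu i
    have h5 : w * 1 ≤ w * R ^ (i : ℕ) := mul_le_mul_of_nonneg_left (hRp _) hw0.le
    have e1 : (w * R ^ (i : ℕ)) * (R - 2) = w * (R ^ (i : ℕ) * R) - 2 * (w * R ^ (i : ℕ)) := by ring
    rw [e1]
    linarith
  have hwRpos : ∀ i : Fin K, w ≤ w * R ^ (i : ℕ) := by
    intro i
    have := mul_le_mul_of_nonneg_left (hRp (i : ℕ)) hw0.le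
    linarith
  have htmono : StrictMono t := by
    intro i j hij
    have h1 := hlac i j hij
    have h2 := hwRpos i
    have h3 : 0 < (w * R ^ (i : ℕ)) * (R - 2) := mul_pos (by linarith) (by linarith)
    have h4 : (t i : ℝ) < t j := by linarith
    exact_mod_cast h4
  have htF : ∀ j, (t j : ℝ) ≤ F := by
    intro j
    have h1 := htu j
    have h2 := hwR8 j j.2.le
    have h3 : w ≤ F / 8 := by
      have := hwR8 0 (Nat.zero_le _)
      rw [pow_zero] at this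
      linarith
    linarith
  have htyy : ∀ j, yy X < t j := by
    intro j
    have h0 : 0 ≤ Real.log X := by linarith
    have h1 : (yy X : ℝ) ≤ Real.log X / 1000 := Nat.floor_le (by positivity)
    have h4 := hwRpos j
    have h5 := htl j
    have h6 : (yy X : ℝ) < t j := by linarith
    exact_mod_cast h6
  obtain ⟨n₀, hn1, hn2, hn3, ⟨G, hG1, hG2⟩, hn4, hn5⟩ := hX1 X hXX1 t htmono.injective
    (fun j => ⟨htp j, htyy j, (htF j).trans hFc0⟩) (cmod K M hM0) (fib_cmod K M hM0 hMK) bad hbad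
  have hqn : q ∣ n₀ := dvd_of_primes q n₀ hqsf fun p hp hpq => hn5 p hp (Nat.le_of_dvd hq0 hpq)
  -- the primes of the window
  have hinf : (Set.ofPred Nat.Prime).Infinite := Nat.infinite_setOfPred_prime
  set S : Finset (Fin K) := univ.filter (fun j => (n₀ + t j).Prime) with hS
  have hScard : m + 1 ≤ S.card := by
    have h1 : G.card ≤ S.card := by
      have hch : ∀ d ∈ G, ∃ j, cmod K M hM0 j = d ∧ (n₀ + t j).Prime := hG2
      choose! φ hφ1 hφ2 using hch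
      refine card_le_card_of_injOn φ ?_ ?_
      · intro d hd
        rw [mem_coe] at hd
        rw [mem_coe, hS, mem_filter]
        exact ⟨mem_univ _, hφ2 d hd⟩
      · intro d hd d' hd' hdd
        rw [mem_coe] at hd hd'
        rw [← hφ1 d hd, ← hφ1 d' hd', hdd]
    have h2 : ((m : ℝ) + 1) < G.card := by
      have : (M : ℝ) * η = η * M := mul_comm _ _
      linarith
    have h3 : m + 1 < G.card := by exact_mod_cast h2
    omega
  set n := Nat.count Nat.Prime n₀ with hn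
  have hcountF : n + (m + 1) ≤ Nat.count Nat.Prime (n₀ + ⌊F⌋₊ + 1) := by
    have hsub : ((range n₀).filter Nat.Prime) ∪ S.image (fun j => n₀ + t j) ⊆
        (range (n₀ + ⌊F⌋₊ + 1)).filter Nat.Prime := by
      intro p hp
      rw [mem_union] at hp
      rcases hp with hp | hp
      · rw [mem_filter, mem_range] at hp ⊢
        exact ⟨by omega, hp.2⟩
      · obtain ⟨j, hj, rfl⟩ := mem_image.1 hp
        rw [hS, mem_filter] at hj
        rw [mem_filter, mem_range]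
        refine ⟨?_, hj.2⟩
        have h1 : t j ≤ ⌊F⌋₊ := Nat.le_floor (htF j)
        omega
    have hdisj : Disjoint ((range n₀).filter Nat.Prime) (S.image (fun j => n₀ + t j)) := by
      rw [disjoint_left]
      intro p hp hp'
      rw [mem_filter, mem_range] at hp
      obtain ⟨j, hj, rfl⟩ := mem_image.1 hp'
      omega
    have h2 := card_le_card hsub
    rw [card_union_of_disjoint hdisj, card_image_of_injective _ (fun i j hij => htmono.injective (by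
      have : n₀ + t i = n₀ + t j := hij
      omega))] at h2
    rw [hn, Nat.count_eq_card_filter_range, Nat.count_eq_card_filter_range]
    exact le_trans (Nat.add_le_add_left hScard _) h2
  have hτ : ∀ i ≤ m, ∃ j : Fin K, Nat.nth Nat.Prime (n + i) = n₀ + t j := by
    intro i hi
    have h1 : n₀ ≤ Nat.nth Nat.Prime (n + i) := (Nat.count_le_iff_le_nth hinf).1 (by omega)
    have h2 : Nat.nth Nat.Prime (n + i) < n₀ + ⌊F⌋₊ + 1 := Nat.nth_lt_of_lt_count (by omega)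
    obtain ⟨s, hs⟩ := Nat.exists_eq_add_of_le h1
    have h3 : (s : ℝ) ≤ F := by
      have h4 : s ≤ ⌊F⌋₊ := by omega
      exact (Nat.cast_le.2 h4).trans (Nat.floor_le hFpos.le)
    obtain ⟨j, hj⟩ := hn4 s (h3.trans hFc0) (by rw [← hs]; exact Nat.prime_nth_prime _)
    exact ⟨j, by rw [hs, hj]⟩
  choose! τ hτ using hτ
  have hτmono : ∀ i j, i < j → j ≤ m → τ i < τ j := by
    intro i j hij hj
    have h1 := Nat.nth_strictMono hinf (show n + i < n + j by omega)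
    rw [hτ i (by omega), hτ j hj] at h1
    exact htmono.lt_iff_lt.1 (by omega)
  have hPc : ∀ i ≤ m, (Nat.nth Nat.Prime (n + i) : ℝ) = n₀ + t (τ i) := by
    intro i hi
    rw [hτ i hi]; push_cast; rfl
  have hP0 : (Nat.nth Nat.Prime n : ℝ) = n₀ + t (τ 0) := by
    have := hPc 0 (Nat.zero_le _)
    rwa [Nat.add_zero] at this
  have hPm : (Nat.nth Nat.Prime (n + m) : ℝ) = n₀ + t (τ m) := hPc m le_rfl
  have hPm1 : (Nat.nth Nat.Prime (n + m - 1) : ℝ) = n₀ + t (τ (m - 1)) := by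
    have := hPc (m - 1) (by omega)
    rwa [show n + (m - 1) = n + m - 1 by omega] at this
  have hn1' : 1 ≤ n := by
    have h1 : 2 < n₀ := by
      have h2 : (3 : ℝ) ≤ Real.log X := by linarith
      have h3 : Real.log X ≤ X := by
        have hXpos : 0 < X := by linarith
        exact Real.log_le_self hXpos.le
      have h4 : (2 : ℝ) < n₀ := by linarith
      exact_mod_cast h4
    have h2 : Nat.count Nat.Prime 3 ≤ n := Nat.count_monotone _ (by omega)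
    have h3 : Nat.count Nat.Prime 3 = 1 := by decide
    omega
  have hPprev : (Nat.nth Nat.Prime (n - 1) : ℝ) < n₀ := by
    have h1 : Nat.nth Nat.Prime (n - 1) < n₀ := Nat.nth_lt_of_lt_count (by omega)
    exact_mod_cast h1
  -- sizes
  have hτ0 : F / 2 + w < t (τ 0) := by
    have h1 := htl (τ 0)
    have h2 := hwRpos (τ 0)
    linarith
  have hdiam : (t (τ (m - 1)) : ℝ) - t (τ 0) ≤ w * R ^ (τ (m - 1) : ℕ) := by
    have h1 := htu (τ (m - 1))
    linarith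
  have hnext : (w * R ^ (τ (m - 1) : ℕ)) * (R - 2) ≤ (t (τ m) : ℝ) - t (τ (m - 1)) :=
    hlac _ _ (hτmono (m - 1) m (by omega) le_rfl)
  have hgapw : ∀ i : Fin K, w ≤ (w * R ^ (i : ℕ)) * (R - 2) := by
    intro i
    have h1 := hwRpos i
    nlinarith
  have hcF : min c0 κ * F ≤ w := by
    rw [hw]; exact mul_le_mul_of_nonneg_right (min_le_right _ _) hFpos.le
  refine ⟨n₀, n, hn1, hn2, hn3, ?_, ?_, ?_, ?_, ?_, ?_, ?_, ?_⟩
  · exact (Nat.count_le_iff_le_nth hinf).1 le_rfl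
  · rw [hPm]
    have := htF (τ m)
    linarith
  · intro i hi
    rw [hτ i hi]
    have h1 : n₀ ≡ 0 [MOD q] := (Nat.modEq_zero_iff_dvd).2 hqn
    have h2 := h1.add (hta (τ i))
    rwa [zero_add] at h2
  · rw [hP0]
    linarith
  · rw [hPm, hPm1]
    have := hgapw (τ (m - 1))
    linarith
  · intro hm2
    rw [hPm1, hP0]
    have h1 := hlac _ _ (hτmono 0 (m - 1) (by omega) (by omega))
    have h2 := hgapw (τ 0)
    linarith
  · rw [hPm1, hP0]
    have h1 := hwR (τ (m - 1)) (τ (m - 1)).2.le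
    have h2 : min ε 1 / 8 * F ≤ ε / 8 * F := mul_le_mul_of_nonneg_right (by linarith) hFpos.le
    have h3 : ε * (F / 2) ≤ ε * ((n₀ : ℝ) + t (τ 0) - Nat.nth Nat.Prime (n - 1)) :=
      mul_le_mul_of_nonneg_left (by linarith) hε.le
    have h4 : 0 < ε * F := by positivity
    linarith
  · rw [hPm1, hP0, hPm]
    have h1 : 1 ≤ ε * (R - 2) := by
      have h2 : ε * (1 / ε) ≤ ε * (R - 2) := mul_le_mul_of_nonneg_left (by linarith) hε.le
      have h3 : ε * (1 / ε) = 1 := by field_simp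
      linarith
    have h2 : w * R ^ (τ (m - 1) : ℕ) ≤ ε * ((w * R ^ (τ (m - 1) : ℕ)) * (R - 2)) := by
      have h3 : 0 ≤ w * R ^ (τ (m - 1) : ℕ) := by
        have := hwRpos (τ (m - 1))
        linarith
      have e1 : ε * ((w * R ^ (τ (m - 1) : ℕ)) * (R - 2)) = (w * R ^ (τ (m - 1) : ℕ)) * (ε * (R - 2)) := by ring
      rw [e1]
      nlinarith
    have h3 : ε * ((w * R ^ (τ (m - 1) : ℕ)) * (R - 2)) ≤ ε * ((t (τ m) : ℝ) - t (τ (m - 1))) :=
      mul_le_mul_of_nonneg_left hnext hε.le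
    have e2 : (n₀ : ℝ) + t (τ m) - (n₀ + t (τ (m - 1))) = (t (τ m) : ℝ) - t (τ (m - 1)) := by ring
    rw [e2]
    linarith

/-- the set of the first indices of the groups -/
def GrpSet (m : ℕ) (ε c : ℝ) (q a : ℕ) (X H : ℝ) : Set ℕ :=
  {n : ℕ | X < Nat.nth Nat.Prime n ∧ (Nat.nth Nat.Prime (n + m) : ℝ) ≤ 4 * X ∧
    (∀ i ≤ m, Nat.nth Nat.Prime (n + i) ≡ a [MOD q]) ∧
    c * H ≤ (Nat.nth Nat.Prime n : ℝ) - Nat.nth Nat.Prime (n - 1) ∧
    c * H ≤ (Nat.nth Nat.Prime (n + m) : ℝ) - Nat.nth Nat.Prime (n + m - 1) ∧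
    (Nat.nth Nat.Prime (n + m) : ℝ) - Nat.nth Nat.Prime n ≤ H ∧
    (2 ≤ m → c * H ≤ (Nat.nth Nat.Prime (n + m - 1) : ℝ) - Nat.nth Nat.Prime n) ∧
    (Nat.nth Nat.Prime (n + m - 1) : ℝ) - Nat.nth Nat.Prime n ≤
      ε * ((Nat.nth Nat.Prime n : ℝ) - Nat.nth Nat.Prime (n - 1)) ∧
    (Nat.nth Nat.Prime (n + m - 1) : ℝ) - Nat.nth Nat.Prime n ≤
      ε * ((Nat.nth Nat.Prime (n + m) : ℝ) - Nat.nth Nat.Prime (n + m - 1))}

theorem group_count (h : StRQ) (m : ℕ) (hm : 1 ≤ m) (ε : ℝ) (hε : 0 < ε) : ∃ c : ℝ, 0 < c ∧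
    ∀ q a : ℕ, Squarefree q → a.Coprime q → ∃ X₀ : ℝ, ∀ X : ℝ, X₀ ≤ X →
      ∀ H : ℝ, Real.log X ≤ H → H ≤ c * ff X →
      X ^ (7 / 8 : ℝ) ≤ ((GrpSet m ε c q a X H).ncard : ℝ) := by
  classical
  obtain ⟨c, hc0, hgr⟩ := group h m hm ε hε
  refine ⟨c, hc0, ?_⟩
  intro q a hqsf haq
  obtain ⟨X1, hX1⟩ := hgr q a hqsf haq
  obtain ⟨X2, hX2⟩ := Filter.eventually_atTop.1 ((ev_bad (c + 1) (by linarith)).and
    ((ff_small (c + 1) (by linarith)).and ((ff_tendsto.eventually_gt_atTop 0).and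
      (eventually_ge_atTop (Real.exp 1)))))
  refine ⟨max X1 X2, ?_⟩
  intro X hX H hlH hHc
  obtain ⟨hbadX, hsmall, hffpos, hXe⟩ := hX2 X ((le_max_right _ _).trans hX)
  have hXpos : 0 < X := (Real.exp_pos 1).trans_le hXe
  have hlog : 1 ≤ Real.log X := by
    rw [Real.le_log_iff_exp_le hXpos]; exact hXe
  have hH0 : 0 < H := by linarith
  have hHX : H ≤ X := by
    have : (c + 1) * ff X = c * ff X + ff X := by ring
    linarith
  set S := GrpSet m ε c q a X H with hS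
  have hfin : S.Finite := by
    refine (Set.finite_Iic ⌊4 * X⌋₊).subset ?_
    rintro n ⟨-, h2, -⟩
    rw [Set.mem_Iic]
    refine Nat.le_floor (le_trans ?_ h2)
    have h3 : n + m ≤ Nat.nth Nat.Prime (n + m) :=
      (Nat.nth_strictMono Nat.infinite_setOfPred_prime).le_apply
    exact_mod_cast (Nat.le_add_right n m).trans h3
  by_contra hlt
  push Not at hlt
  set S0 : Finset ℕ := hfin.toFinset with hS0
  have hS0card : (S0.card : ℝ) < X ^ (7 / 8 : ℝ) := by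
    rw [hS0, ← Set.ncard_eq_toFinset_card S hfin]
    exact hlt
  set bad : Finset ℕ := S0.biUnion (fun n => Icc (Nat.nth Nat.Prime n - ⌊H⌋₊) (Nat.nth Nat.Prime n))
    with hbaddef
  have hbadcard : (bad.card : ℝ) ≤ X ^ (9 / 10 : ℝ) := by
    have h1 : bad.card ≤ S0.card * (⌊H⌋₊ + 1) := by
      refine Finset.card_biUnion_le.trans ?_
      have h2 : ∀ n ∈ S0, (Icc (Nat.nth Nat.Prime n - ⌊H⌋₊) (Nat.nth Nat.Prime n)).card ≤ ⌊H⌋₊ + 1 := by
        intro n _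
        rw [Nat.card_Icc]
        omega
      exact (Finset.sum_le_card_nsmul _ _ _ h2).trans (le_of_eq (by rw [smul_eq_mul]))
    have h3 : ((⌊H⌋₊ + 1 : ℕ) : ℝ) ≤ (c + 1) * ff X + 1 := by
      push_cast
      have := Nat.floor_le hH0.le
      nlinarith
    calc (bad.card : ℝ) ≤ ((S0.card * (⌊H⌋₊ + 1) : ℕ) : ℝ) := by exact_mod_cast h1
      _ = (S0.card : ℝ) * ((⌊H⌋₊ + 1 : ℕ) : ℝ) := by push_cast; ring
      _ ≤ X ^ (7 / 8 : ℝ) * ((c + 1) * ff X + 1) := by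
          apply mul_le_mul hS0card.le h3 (Nat.cast_nonneg _) (Real.rpow_nonneg (by linarith) _)
      _ ≤ _ := hbadX
  obtain ⟨n₀, n, hn1, hn2, hn3, hb1, hb2, hres, hg1, hg2, hg3, hg4, hg5⟩ :=
    hX1 X ((le_max_left _ _).trans hX) H hlH hHc bad hbadcard
  have hb1r : (n₀ : ℝ) ≤ Nat.nth Nat.Prime n := by exact_mod_cast hb1
  apply hn3
  rw [hbaddef, mem_biUnion]
  refine ⟨n, ?_, ?_⟩
  · rw [hS0, Set.Finite.mem_toFinset]
    exact ⟨by linarith, by linarith, hres, hg1, hg2, by linarith, hg3, hg4, hg5⟩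
  · rw [mem_Icc]
    have h2 : (Nat.nth Nat.Prime n : ℝ) ≤ n₀ + H := (nth_mono_real (by omega)).trans hb2
    have h3 : Nat.nth Nat.Prime n - n₀ ≤ ⌊H⌋₊ := by
      apply Nat.le_floor
      rw [Nat.cast_sub hb1]
      linarith
    omega

end Pool.Agent.T6.H2.LF
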